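import Pool.Agent.Lib.AS.R3.Spec

/-!
# Closed subsets of the boundary of a ball (helper20)
-/

set_option autoImplicit false

namespace AS

namespace R3

/-- **Bd.** Closed subsets of the boundary of a ball. -/
theorem rBd (hHalf : S_Half) (hLB : S_LB) (hCo : S_Co3) (hSte : S_Ste) : S_Bd := by
  intro Γ p s Z k hΓ hp hs hs1 hZ hZB hk x
  obtain ⟨r, hr⟩ := hHalf Γ p s Z k hΓ hZ hs fun y hy => (hZB hy).2.ge
  have hF : IsCompact (Z ∩ {y | s ≤ inner ℝ p y}) :=
    hZ.cpt.inter_right (isClosed_le continuous_const (by fun_prop))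
  have hin : ∀ y ∈ Z ∩ {y | s ≤ inner ℝ p y}, inner ℝ p y = s := fun y hy =>
    le_antisymm ((inner_le_ht Γ p y).trans (hZB hy.1).2.le) hy.2
  have h0 : r x = 0 := by
    by_cases hZe : Z = Bd Γ p s
    · have hk3 : 3 ≤ k := by
        rcases hk with h | h
        · exact h
        · exact (h.2 hZe).elim
      obtain ⟨g, hg, hgi⟩ := hCo p hp s
      exact hLB E4 _ 3 k g hF hg.continuousOn (hgi.mono hin) (by omega) hk3 _
    · have hk2 : 2 ≤ k := by
        rcases hk with h | h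
        · omega
        · exact h.1
      obtain ⟨p', hp', hp'Z⟩ : ∃ p' ∈ Bd Γ p s, p' ∉ Z := by
        by_contra hcon
        push Not at hcon
        exact hZe (Set.Subset.antisymm hZB hcon)
      obtain ⟨g₀, hg₀, hht⟩ := ht_orbit hΓ p p'
      have hgS : g₀ p' ∈ S := (cs_S hΓ).inv g₀ hg₀ p' hp'.1
      have hgZ : g₀ p' ∉ Z := fun h => hp'Z ((hZ.inv.iff hg₀ p').mp h)
      obtain ⟨g, hg, hgi⟩ := hSte p hp (g₀ p') hgS s hs hs1 (by rw [← hht]; exact hp'.2)
      have hne : ∀ y ∈ Z ∩ {y | s ≤ inner ℝ p y}, y ∈ S ∧ y ≠ g₀ p' := fun y hy =>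
        ⟨hZ.sub hy.1, fun h => hgZ (h ▸ hy.1)⟩
      have hsub : Z ∩ {y | s ≤ inner ℝ p y} ⊆ {y | y ∈ S ∧ y ≠ g₀ p' ∧ inner ℝ p y = s} :=
        fun y hy => ⟨(hne y hy).1, (hne y hy).2, hin y hy⟩
      exact hLB E4 _ 2 k g hF (hg.mono hne) (hgi.mono hsub) (by omega) hk2 _
  exact hr (h0.trans (map_zero r).symm)

end R3

end AS
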