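import Pool.Agent.Lib.AS.R3.Spec

/-!
# Balls are acyclic (helper50)
-/

set_option autoImplicit false

namespace AS

namespace R3

private noncomputable def wv (p : E4) (t : ℝ) (y : E4) : E4 := (1 - t) • y + t • p

private theorem wv_sq {p y : E4} (hp : p ∈ S) (hy : y ∈ S) (t : ℝ) :
    ‖wv p t y‖ ^ 2 = (1 - t) ^ 2 + t ^ 2 + 2 * t * (1 - t) * inner ℝ p y := by
  unfold wv
  rw [@norm_add_sq_real, norm_smul, norm_smul, mem_S.mp hp, mem_S.mp hy, inner_smul_left,
    inner_smul_right, real_inner_comm]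
  simp only [Real.norm_eq_abs, mul_one, sq_abs, conj_trivial]
  ring

private theorem wv_inner {p y : E4} (hp : p ∈ S) (t : ℝ) :
    inner ℝ p (wv p t y) = (1 - t) * inner ℝ p y + t := by
  unfold wv
  rw [inner_add_right, inner_smul_right, inner_smul_right, inner_self_one hp, mul_one]

private theorem wv_le {p y : E4} (hp : p ∈ S) (hy : y ∈ S) {t : ℝ} (h0 : 0 ≤ t) (h1 : t ≤ 1) :
    ‖wv p t y‖ ≤ 1 := by
  unfold wv
  refine (norm_add_le _ _).trans ?_
  rw [norm_smul, norm_smul, mem_S.mp hp, mem_S.mp hy, Real.norm_eq_abs, Real.norm_eq_abs,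
    abs_of_nonneg h0, abs_of_nonneg (sub_nonneg.2 h1)]
  linarith

private theorem wv_pos {p y : E4} (hp : p ∈ S) (hy : y ∈ S) (hc : -1 < inner ℝ p y) {t : ℝ}
    (h0 : 0 ≤ t) (h1 : t ≤ 1) : 0 < ‖wv p t y‖ := by
  have h2 : 0 < ‖wv p t y‖ ^ 2 := by
    rw [wv_sq hp hy]
    have h3 : 0 ≤ t * (1 - t) := mul_nonneg h0 (sub_nonneg.2 h1)
    have h4 : (1 - t) ^ 2 + t ^ 2 + 2 * t * (1 - t) * inner ℝ p y =
        (1 - 2 * t) ^ 2 + 2 * (t * (1 - t)) * (1 + inner ℝ p y) := by ring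
    rw [h4]
    rcases h3.eq_or_lt with h5 | h5
    · rcases mul_eq_zero.1 h5.symm with h6 | h6
      · rw [h6]; norm_num
      · have : t = 1 := by linarith
        rw [this]; norm_num
    · have h6 : 0 < 2 * (t * (1 - t)) * (1 + inner ℝ p y) := by
        apply mul_pos (by linarith) (by linarith)
      have h7 := sq_nonneg (1 - 2 * t)
      linarith
  by_contra h
  have h5 : ‖wv p t y‖ = 0 := le_antisymm (not_lt.1 h) (norm_nonneg _)
  rw [h5] at h2
  norm_num at h2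

private theorem wv_key {c t n : ℝ} (h0 : 0 ≤ t) (h1 : t ≤ 1) (hc1 : c ≤ 1) (hn0 : 0 ≤ n)
    (hn1 : n ≤ 1) (hc : -1 < c) (hn : n ^ 2 = (1 - t) ^ 2 + t ^ 2 + 2 * t * (1 - t) * c) :
    c * n ≤ (1 - t) * c + t := by
  rcases le_or_gt 0 c with h | h
  · have h2 : c * n ≤ c := by nlinarith
    have h3 : 0 ≤ t * (1 - c) := mul_nonneg h0 (by linarith)
    nlinarith
  rcases le_or_gt 0 ((1 - t) * c + t) with h2 | h2
  · exact (mul_nonpos_of_nonpos_of_nonneg h.le hn0).trans h2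
  · have h3 : (1 - t) * c ≤ 0 := mul_nonpos_of_nonneg_of_nonpos (by linarith) h.le
    have h4 : ((1 - t) * c + t) ^ 2 ≤ (c * n) ^ 2 := by
      have h5 : (c * n) ^ 2 - ((1 - t) * c + t) ^ 2 =
          (1 - c ^ 2) * t * (-(t + 2 * ((1 - t) * c))) := by
        rw [mul_pow, hn]
        ring
      have h6 : 0 ≤ 1 - c ^ 2 := by nlinarith
      have h7 : 0 ≤ -(t + 2 * ((1 - t) * c)) := by linarith
      have h8 : 0 ≤ (1 - c ^ 2) * t * (-(t + 2 * ((1 - t) * c))) :=
        mul_nonneg (mul_nonneg h6 h0) h7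
      linarith
    have h5 : |(1 - t) * c + t| ≤ |c * n| := sq_le_sq.1 h4
    have h6 : c * n ≤ 0 := mul_nonpos_of_nonpos_of_nonneg h.le hn0
    rw [abs_of_neg h2, abs_of_nonpos h6] at h5
    linarith

/-- **Cap.** Balls are acyclic. -/
theorem rCap (h1 : S_Ctr) (h2 : S_Half) : S_Cap := by
  have first : ∀ p ∈ S, ∀ s : ℝ, -1 < s → ∀ (k : ℕ)
      (x : H (⊥ : Subgroup (E4 ≃ᵢ E4)) ∅ (k + 1) {y | y ∈ S ∧ s ≤ inner ℝ p y}), x = 0 := by
    intro p hp s hs k
    rcases lt_or_ge 1 s with h | h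
    · have hE : {y | y ∈ S ∧ s ≤ inner ℝ p y} = (∅ : Set E4) := by
        rw [Set.eq_empty_iff_forall_notMem]
        rintro y ⟨hy, hy'⟩
        have := (le_abs_self _).trans (inner_le_one hp hy)
        linarith
      exact fun x => H_empty hE x
    · have hci : Continuous fun y : E4 => (inner ℝ p y : ℝ) := by fun_prop
      have hK : IsCompact {y : E4 | y ∈ S ∧ s ≤ inner ℝ p y} :=
        isCompact_S.of_isClosed_subset (isClosed_S.inter (isClosed_le continuous_const hci))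
          fun y hy => hy.1
      refine h1 E4 {y | y ∈ S ∧ s ≤ inner ℝ p y} (fun t y => ‖wv p t y‖⁻¹ • wv p t y) p k hK
        ⟨hp, by rw [inner_self_one hp]; exact h⟩ ?_ ?_ ?_ ?_
      · have hw : Continuous fun q : ℝ × E4 => wv p q.1 q.2 := by
          unfold wv
          fun_prop
        refine ContinuousOn.smul (ContinuousOn.inv₀ hw.norm.continuousOn ?_) hw.continuousOn
        rintro ⟨t, y⟩ ⟨ht, hy⟩
        exact (wv_pos hp hy.1 (hs.trans_le hy.2) ht.1 ht.2).ne'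
      · intro t ht y hy
        have hc : -1 < inner ℝ p y := hs.trans_le hy.2
        have hpos := wv_pos hp hy.1 hc ht.1 ht.2
        refine ⟨?_, ?_⟩
        · rw [mem_S, norm_smul, norm_inv, norm_norm, inv_mul_cancel₀ hpos.ne']
        · have hk := wv_key ht.1 ht.2 ((le_abs_self _).trans (inner_le_one hp hy.1)) hpos.le
            (wv_le hp hy.1 ht.1 ht.2) hc (wv_sq hp hy.1 t)
          refine hy.2.trans ?_
          rw [inner_smul_right, wv_inner hp, le_inv_mul_iff₀ hpos, mul_comm]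
          exact hk
      · intro y hy
        have : wv p 0 y = y := by
          unfold wv
          simp
        show ‖wv p 0 y‖⁻¹ • wv p 0 y = y
        rw [this, mem_S.mp hy.1, inv_one, one_smul]
      · intro y _
        have : wv p 1 y = p := by
          unfold wv
          simp
        show ‖wv p 1 y‖⁻¹ • wv p 1 y = p
        rw [this, mem_S.mp hp, inv_one, one_smul]
  refine ⟨first, ?_⟩
  intro Γ hΓ p hp s hs k x
  obtain ⟨r, hr⟩ := h2 Γ p s (Cb Γ p s) (k + 1) hΓ (cs_Cb hΓ p s) hs fun y hy => hy.2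
  have hset : Cb Γ p s ∩ {y | s ≤ inner ℝ p y} = {y | y ∈ S ∧ s ≤ inner ℝ p y} := by
    ext y
    exact ⟨fun h => ⟨h.1.1, h.2⟩, fun h => ⟨⟨h.1, h.2.trans (inner_le_ht Γ p y)⟩, h.2⟩⟩
  have hz : ∀ z : H (⊥ : Subgroup (E4 ≃ᵢ E4)) ∅ (k + 1) (Cb Γ p s ∩ {y | s ≤ inner ℝ p y}),
      z = 0 := by
    rw [hset]
    exact first p hp s (by linarith) k
  apply hr
  rw [hz (r x), map_zero]

end R3

end AS
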