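import Pool.Agent.Lib.AS.R3.Spec

/-!
# Alexander-Spanier cohomology: minimal carriers
-/

set_option autoImplicit false

namespace AS

namespace R3

theorem rCar (h1 : S_Chn) : S_Car := by
  intro X _ Γ C k x hC hx
  let 𝒵 : Set (Set X) := {Z | ∃ h : Z ⊆ C, IsClosed Z ∧ IvS Γ Z ∧ res h k x ≠ 0}
  have hok : ∀ Z ∈ 𝒵, Ok Γ Z := by
    rintro Z ⟨h, hcl, hinv, -⟩
    exact ⟨hC.cpt.of_isClosed_subset hcl h, hinv, hC.fr.mono h⟩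
  have hC𝒵 : C ∈ 𝒵 := ⟨subset_rfl, hC.cpt.isClosed, hC.inv, by rw [res_self]; exact hx⟩
  obtain ⟨Z, -, hZ⟩ := zorn_superset_nonempty 𝒵 (by
    intro c hc hch hne
    refine ⟨⋂₀ c, ?_, fun s hs => Set.sInter_subset_of_mem hs⟩
    obtain ⟨C₀, h₀⟩ := hne
    have hok' : ∀ Z ∈ c, Ok Γ Z := fun Z hZ => hok Z (hc hZ)
    have hsub : ⋂₀ c ⊆ C := (Set.sInter_subset_of_mem h₀).trans (hc h₀).choose
    refine ⟨hsub, isClosed_sInter fun Z hZ => (hok' Z hZ).cpt.isClosed,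
      fun g hg y hy Z hZ => (hok' Z hZ).inv g hg y (hy Z hZ), fun h0 => ?_⟩
    obtain ⟨hsub₀, hcl₀, hinv₀, hne₀⟩ := hc h₀
    have h2 : res (Set.sInter_subset_of_mem h₀) k (res hsub₀ k x) = 0 := by
      rw [res_res _ _ hsub]
      exact h0
    obtain ⟨Z, hZ, hZ₀, hz⟩ := (h1 X Γ ∅ c k (OkD.empty Γ) ⟨C₀, h₀⟩ hch hok').2 C₀ h₀ _ h2
    obtain ⟨hsubZ, -, -, hneZ⟩ := hc hZ
    rw [res_res _ _ hsubZ] at hz
    exact hneZ hz) C hC𝒵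
  have hZ' := hZ.1
  obtain ⟨hZC, hcl, hinv, hne⟩ := hZ.1
  refine ⟨Z, hZC, hok Z hZ', hne, ?_⟩
  intro Z' h hsub hne' hcl' hinv'
  by_contra hcon
  exact hne' (Set.Subset.antisymm hsub (hZ.2 ⟨h, hcl', hinv', hcon⟩ hsub))

end R3

end AS
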