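import Pool.Agent.Lib.AS.R3.Spec

/-!
# Alexander-Spanier cohomology: tautness for chains
-/

set_option autoImplicit false

namespace AS

namespace R3

theorem rChn (h1 : T1) (h2 : T2) : S_Chn := by
  intro X _ Γ D 𝒞 n hD hne hch hok
  obtain ⟨C₁, hC₁⟩ := hne
  have hB : Ok Γ (⋂₀ 𝒞) :=
    ⟨(hok C₁ hC₁).cpt.of_isClosed_subset (isClosed_sInter fun C hC => (hok C hC).cpt.isClosed)
      (Set.sInter_subset_of_mem hC₁),
      fun g hg x hx C hC => (hok C hC).inv g hg x (hx C hC),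
      (hok C₁ hC₁).fr.mono (Set.sInter_subset_of_mem hC₁)⟩
  have key : ∀ ρ : ℝ, 0 < ρ → ∀ C₀ ∈ 𝒞, ∃ C ∈ 𝒞, C ⊆ C₀ ∧ ∀ x ∈ C, ∃ b ∈ ⋂₀ 𝒞, dist x b < ρ := by
    intro ρ hρ C₀ hC₀
    by_contra hno
    push Not at hno
    let I := {C : Set X // C ∈ 𝒞 ∧ C ⊆ C₀}
    let K : I → Set X := fun i => {x | x ∈ i.1 ∧ ∀ b ∈ ⋂₀ 𝒞, ρ ≤ dist x b}
    have hKcl : ∀ i, IsClosed (K i) := by
      intro i
      have : K i = i.1 ∩ ⋂ b ∈ ⋂₀ 𝒞, {x | ρ ≤ dist x b} := by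
        ext x
        simp [K]
      rw [this]
      exact (hok i.1 i.2.1).cpt.isClosed.inter
        (isClosed_biInter fun b _ => isClosed_le continuous_const (continuous_id.dist continuous_const))
    have hKc : ∀ i, IsCompact (K i) := fun i =>
      (hok i.1 i.2.1).cpt.of_isClosed_subset (hKcl i) fun x hx => hx.1
    have hdir : Directed (· ⊇ ·) K := by
      intro i j
      rcases hch.total i.2.1 j.2.1 with h | h
      · exact ⟨i, fun x hx => hx, fun x hx => ⟨h hx.1, hx.2⟩⟩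
      · exact ⟨j, fun x hx => ⟨h hx.1, hx.2⟩, fun x hx => hx⟩
    have : Nonempty I := ⟨⟨C₀, hC₀, subset_rfl⟩⟩
    obtain ⟨x, hx⟩ := IsCompact.nonempty_iInter_of_directed_nonempty_isCompact_isClosed K hdir
      (fun i => by
        obtain ⟨x, hx, hb⟩ := hno i.1 i.2.1 i.2.2
        exact ⟨x, hx, hb⟩) hKc hKcl
    rw [Set.mem_iInter] at hx
    have hxB : x ∈ ⋂₀ 𝒞 := by
      intro C hC
      rcases hch.total hC hC₀ with h | h
      · exact (hx ⟨C, hC, h⟩).1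
      · exact h (hx ⟨C₀, hC₀, subset_rfl⟩).1
    have := (hx ⟨C₀, hC₀, subset_rfl⟩).2 x hxB
    rw [dist_self] at this
    linarith
  constructor
  · intro y
    obtain ⟨ρ, hρ, h⟩ := h2 X Γ D (⋂₀ 𝒞) C₁ n y (Set.sInter_subset_of_mem hC₁) hD hB (hok C₁ hC₁)
    obtain ⟨C, hC, hCC, hnear⟩ := key ρ hρ C₁ hC₁
    obtain ⟨x, hx⟩ := h C (Set.sInter_subset_of_mem hC) hCC hnear
    exact ⟨C, hC, x, hx⟩
  · intro C₀ h₀ x hx
    obtain ⟨ρ, hρ, h⟩ := h1 X Γ D (⋂₀ 𝒞) C₀ n (Set.sInter_subset_of_mem h₀) x hD hB (hok C₀ h₀) hx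
    obtain ⟨C, hC, hCC, hnear⟩ := key ρ hρ C₀ h₀
    exact ⟨C, hC, hCC, h C hCC hnear⟩

end R3

end AS
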