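import Pool.Agent.Lib.AS.R3.Spec

/-!
# AS, R3: three coordinates on a hyperplane of `E4` (Co3)
-/

namespace AS

namespace R3

theorem rCo3 (h1 : S_Onb) : S_Co3 := by
  intro p hp s
  obtain ⟨b, hb⟩ := h1.1 p hp
  refine ⟨fun y i => inner ℝ (b i.succ) y, by fun_prop, ?_⟩
  intro y hy z hz h
  simp only [Set.mem_setOf_eq] at hy hz
  apply b.repr.injective
  ext i
  rw [OrthonormalBasis.repr_apply_apply, OrthonormalBasis.repr_apply_apply]
  refine Fin.cases ?_ (fun j => ?_) i
  · rw [hb, hy, hz]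
  · exact congrFun h j

end R3

end AS
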