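import Pool.Agent.Lib.AS.R3.Spec

/-!
# The complement of a closed symmetric subset of the three-sphere is connected or even
-/

set_option autoImplicit false

namespace AS

namespace R3

/-- the radial projection to the sphere -/
noncomputable def rad (x : E4) : E4 := ‖x‖⁻¹ • x

theorem rad_neg (x : E4) : rad (-x) = -rad x := by
  unfold rad
  rw [norm_neg, smul_neg]

theorem rad_S {x : E4} (hx : x ∈ S) : rad x = x := by
  unfold rad
  rw [mem_S.mp hx, inv_one, one_smul]

theorem rad_mem {x : E4} (hx : x ≠ 0) : rad x ∈ S := by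
  rw [mem_S, rad, norm_smul, norm_inv, norm_norm]
  exact inv_mul_cancel₀ (norm_ne_zero_iff.mpr hx)

theorem rad_smul {t : ℝ} (ht : 0 < t) (x : E4) : rad (t • x) = rad x := by
  unfold rad
  rw [norm_smul, Real.norm_eq_abs, abs_of_pos ht, smul_smul, mul_inv, mul_comm t⁻¹, mul_assoc,
    inv_mul_cancel₀ ht.ne', mul_one]

theorem rad_cont : ContinuousOn rad {x : E4 | x ≠ 0} := by
  unfold rad
  exact (continuous_norm.continuousOn.inv₀ fun x hx => norm_ne_zero_iff.mpr hx).smul
    continuousOn_id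

theorem dic : S_Dic := by
  intro X hX hmod
  by_cases hall : S ⊆ X
  · left
    rw [Set.diff_eq_empty.mpr hall]
    exact isPreconnected_empty
  obtain ⟨y₀, hy₀S, hy₀X⟩ := Set.not_subset.mp hall
  have hXneg : ∀ x, -x ∈ X ↔ x ∈ X := by
    intro x
    have h1 := ivS_Pm.mp hX.inv
    constructor
    · intro h
      have := h1 _ h
      rwa [neg_neg] at this
    · exact h1 x
  let V : Set E4 := {x | x ≠ 0} ∩ rad ⁻¹' Xᶜ
  have hVo : IsOpen V := rad_cont.isOpen_inter_preimage isOpen_ne hX.cl.isOpen_compl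
  have hVneg : ∀ x, -x ∈ V ↔ x ∈ V := by
    intro x
    simp only [V, Set.mem_inter_iff, Set.mem_setOf_eq, Set.mem_preimage, Set.mem_compl_iff,
      rad_neg, hXneg, ne_eq, neg_eq_zero]
  have hVS : ∀ y ∈ S, (y ∈ V ↔ y ∉ X) := by
    intro y hy
    simp only [V, Set.mem_inter_iff, Set.mem_setOf_eq, Set.mem_preimage, Set.mem_compl_iff,
      rad_S hy]
    refine ⟨fun h => h.2, fun h => ⟨?_, h⟩⟩
    rintro rfl
    exact zero_notMem_S hy
  let W : Set E4 := connectedComponentIn V y₀
  have hWo : IsOpen W := hVo.connectedComponentIn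
  have hWp : IsPreconnected W := isPreconnected_connectedComponentIn
  have hWV : W ⊆ V := connectedComponentIn_subset V y₀
  have hy₀W : y₀ ∈ W := mem_connectedComponentIn ((hVS y₀ hy₀S).mpr hy₀X)
  -- maximality
  have hmax : ∀ T : Set E4, IsPreconnected T → T ⊆ V → (T ∩ W).Nonempty → T ⊆ W := by
    rintro T hT hTV ⟨y, hyT, hyW⟩
    have h1 : connectedComponentIn V y₀ = connectedComponentIn V y := connectedComponentIn_eq hyW
    change T ⊆ connectedComponentIn V y₀
    rw [h1]
    exact hT.subset_connectedComponentIn hyT hTV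
  let W' : Set E4 := (fun x => -x) ⁻¹' W
  have hW'o : IsOpen W' := hWo.preimage continuous_neg
  have hPneg : ∀ x, -x ∈ W ∪ W' ↔ x ∈ W ∪ W' := by
    intro x
    simp only [W', Set.mem_union, Set.mem_preimage, neg_neg]
    exact or_comm
  have hQo : IsOpen (V \ (W ∪ W')) := by
    rw [isOpen_iff_mem_nhds]
    intro x hx
    have hxo : IsOpen (connectedComponentIn V x) := hVo.connectedComponentIn
    refine Filter.mem_of_superset (hxo.mem_nhds (mem_connectedComponentIn hx.1)) ?_
    intro y hy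
    refine ⟨connectedComponentIn_subset V x hy, ?_⟩
    rintro (h | h)
    · exact hx.2 (Or.inl (hmax _ isPreconnected_connectedComponentIn
        (connectedComponentIn_subset V x) ⟨y, hy, h⟩ (mem_connectedComponentIn hx.1)))
    · have h1 : IsPreconnected ((fun z : E4 => -z) '' connectedComponentIn V x) :=
        isPreconnected_connectedComponentIn.image _ continuous_neg.continuousOn
      have h2 : (fun z : E4 => -z) '' connectedComponentIn V x ⊆ V := by
        rintro _ ⟨z, hz, rfl⟩
        exact (hVneg z).mpr (connectedComponentIn_subset V x hz)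
      exact hx.2 (Or.inr (hmax _ h1 h2 ⟨-y, ⟨y, hy, rfl⟩, h⟩
        ⟨x, mem_connectedComponentIn hx.1, rfl⟩))
  have hcases := hmod (S \ (V \ (W ∪ W'))) (S \ (W ∪ W'))
    (by
      rw [Set.diff_eq]
      exact isClosed_S.inter hQo.isClosed_compl)
    (by
      rw [Set.diff_eq]
      exact isClosed_S.inter (hWo.union hW'o).isClosed_compl)
    (ivS_Pm.mpr fun x hx => ⟨neg_mem_S hx.1, fun h => hx.2 ⟨(hVneg x).mp h.1,
      fun h' => h.2 ((hPneg x).mpr h')⟩⟩)
    (ivS_Pm.mpr fun x hx => ⟨neg_mem_S hx.1, fun h => hx.2 ((hPneg x).mp h)⟩)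
    (by
      ext y
      simp only [Set.mem_union, Set.mem_diff]
      tauto)
    (by
      ext y
      constructor
      · rintro ⟨⟨h1, h2⟩, -, h3⟩
        by_contra h4
        exact h2 ⟨(hVS y h1).mpr h4, h3⟩
      · intro h
        have hyS := hX.sub h
        have hyV : y ∉ V := fun h' => (hVS y hyS).mp h' h
        refine ⟨⟨hyS, fun h' => hyV h'.1⟩, hyS, ?_⟩
        rintro (h' | h')
        · exact hyV (hWV h')
        · exact hyV ((hVneg y).mp (hWV h')))
  rcases hcases with hA | hB
  · exfalso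
    apply hy₀X
    rw [← hA]
    exact ⟨hy₀S, fun h => h.2 (Or.inl hy₀W)⟩
  have hSP : ∀ y ∈ S, y ∉ X → y ∈ W ∪ W' := by
    intro y hy hyX
    by_contra h
    apply hyX
    rw [← hB]
    exact ⟨hy, h⟩
  by_cases hd : (W ∩ W').Nonempty
  · left
    obtain ⟨y, hyW, hyW'⟩ := hd
    have h1 : IsPreconnected ((fun z : E4 => -z) '' W) := hWp.image _ continuous_neg.continuousOn
    have h2 : (fun z : E4 => -z) '' W ⊆ V := by
      rintro _ ⟨z, hz, rfl⟩
      exact (hVneg z).mpr (hWV hz)
    have h3 : (fun z : E4 => -z) '' W ⊆ W := hmax _ h1 h2 ⟨-y, ⟨y, hyW, rfl⟩, hyW'⟩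
    have h4 : W' ⊆ W := by
      intro z hz
      have h5 : -(-z) ∈ W := h3 ⟨-z, hz, rfl⟩
      rwa [neg_neg] at h5
    have h5 : S \ X = rad '' W := by
      ext z
      constructor
      · rintro ⟨hzS, hzX⟩
        rcases hSP z hzS hzX with h | h
        · exact ⟨z, h, rad_S hzS⟩
        · exact ⟨z, h4 h, rad_S hzS⟩
      · rintro ⟨x, hx, rfl⟩
        have hx0 : x ≠ 0 := (hWV hx).1
        exact ⟨rad_mem hx0, (hWV hx).2⟩
    rw [h5]
    exact hWp.image _ (rad_cont.mono fun x hx => (hWV hx).1)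
  · right
    refine ⟨W, hWo, fun y hy hyX => ⟨fun h h' => hd ⟨y, h, h'⟩, fun h => ?_⟩⟩
    rcases hSP y hy hyX with h' | h'
    · exact h'
    · exact (h h').elim

end R3

end AS
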