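import Pool.Agent.Lib.AS.R3.Spec

/-!
# Even complements: the square of `a` is not zero (helper20)
-/

set_option autoImplicit false

namespace AS

namespace R3

/-- **Ev.** If the double covering is trivial over the complement of `X` then `a² ≠ 0` on `X`. -/
theorem rEv (hRP : S_RP) (hOne : S_One) (hT1 : T1) (hK3 : K3) : S_Ev := by
  intro X h0 hX hev h2
  have hr0 : res hX.sub 2 (ap 2 S zero_notMem_S) = 0 := by
    rw [res_ap 2 zero_notMem_S hX.sub h0]
    exact h2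
  obtain ⟨ρ, hρ, hN⟩ := hT1 E4 (Pm E4) ∅ X S 2 hX.sub (ap 2 S zero_notMem_S) (OkD.empty _)
    (hX.ok gp_Pm) ((cs_S gp_Pm).ok gp_Pm) hr0
  obtain ⟨W, hW, hWX⟩ := hev
  have hneg : ∀ x ∈ X, -x ∈ X := ivS_Pm.mp hX.inv
  have hct : ∀ y : E4, y ∈ Metric.cthickening (ρ / 2) X ↔ ∃ b ∈ X, dist y b ≤ ρ / 2 := by
    intro y
    rw [hX.cpt.cthickening_eq_biUnion_closedBall (by linarith)]
    simp [Metric.mem_closedBall]
  -- the neighbourhood of `X`
  have hcN : Cs (Pm E4) (S ∩ Metric.cthickening (ρ / 2) X) := by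
    refine ⟨isClosed_S.inter Metric.isClosed_cthickening, Set.inter_subset_left, ?_⟩
    refine ivS_of gp_Pm fun y hy => ⟨neg_mem_S hy.1, ?_⟩
    obtain ⟨b, hb, hd⟩ := (hct y).mp hy.2
    exact (hct _).mpr ⟨-b, hneg b hb, by rwa [dist_neg_neg]⟩
  -- the rest
  have hcK : Cs (Pm E4) (S ∩ {y | ∀ b ∈ X, ρ / 2 ≤ dist y b}) := by
    refine ⟨isClosed_S.inter ?_, Set.inter_subset_left, ?_⟩
    · have h1 : {y : E4 | ∀ b ∈ X, ρ / 2 ≤ dist y b} = ⋂ b ∈ X, {y : E4 | ρ / 2 ≤ dist y b} := by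
        ext y
        simp
      rw [h1]
      exact isClosed_biInter fun b _ =>
        isClosed_le continuous_const (continuous_id.dist continuous_const)
    · refine ivS_of gp_Pm fun y hy => ⟨neg_mem_S hy.1, fun b hb => ?_⟩
      have h1 := hy.2 (-b) (hneg b hb)
      rwa [← dist_neg_neg, neg_neg] at h1
  have hU : S = (S ∩ Metric.cthickening (ρ / 2) X) ∪ (S ∩ {y | ∀ b ∈ X, ρ / 2 ≤ dist y b}) := by
    ext y
    constructor
    · intro hy
      by_cases h : ∀ b ∈ X, ρ / 2 ≤ dist y b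
      · exact Or.inr ⟨hy, h⟩
      · push Not at h
        obtain ⟨b, hb, hd⟩ := h
        exact Or.inl ⟨hy, (hct y).mpr ⟨b, hb, hd.le⟩⟩
    · rintro (hy | hy)
      · exact hy.1
      · exact hy.1
  have ha : res (A := S ∩ Metric.cthickening (ρ / 2) X) hcN.sub 2 (ap 2 S zero_notMem_S) = 0 := by
    refine hN _ hcN.sub fun y hy => ?_
    obtain ⟨b, hb, hd⟩ := (hct y).mp hy.2
    exact ⟨b, hb, by linarith⟩
  have hb : res (A := S ∩ {y | ∀ b ∈ X, ρ / 2 ≤ dist y b}) hcK.sub 1 (ap 1 S zero_notMem_S) = 0 := by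
    rw [res_ap 1 zero_notMem_S hcK.sub hcK.zero]
    refine (hOne _ hcK.zero hcK).mpr
      ⟨(S ∩ {y | ∀ b ∈ X, ρ / 2 ≤ dist y b}) ∩ {y | -y ∉ W}, Set.inter_subset_left,
        hcK.cl.inter ?_, ?_⟩
    · exact (hW.preimage continuous_neg).isClosed_compl
    · intro y hy
      have hyX : y ∉ X := by
        intro h
        have h1 := hy.2 y h
        rw [dist_self] at h1
        linarith
      have h1 := hWX y hy.1 hyX
      have hny : -y ∈ S ∩ {y | ∀ b ∈ X, ρ / 2 ≤ dist y b} := ivS_Pm.mp hcK.inv y hy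
      constructor
      · rintro ⟨_, h3⟩ ⟨_, h4⟩
        apply h4
        rw [neg_neg]
        exact h1.mpr h3
      · intro h3
        refine ⟨hy, fun h4 => h3 ⟨hny, ?_⟩⟩
        change - -y ∉ W
        rw [neg_neg]
        intro h5
        exact h1.mp h5 h4
  have hfin := hK3 E4 (Pm E4) _ _ S 2 1 hcN.sub hcK.sub (hcN.ok gp_Pm) (hcK.ok gp_Pm) hU
    (ap 2 S zero_notMem_S) (ap 1 S zero_notMem_S) ha hb
  apply hRP.1
  have hD : S ∩ (∅ : Set E4) ⊆ (∅ : Set E4) ∨ S ∩ (∅ : Set E4) ⊆ (∅ : Set E4) :=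
    Or.inl Set.inter_subset_right
  have h3 : cupH (∅ : Set E4) 3 (ap 2 S zero_notMem_S) (ap 1 S zero_notMem_S) =
      ap 3 S zero_notMem_S := by
    unfold ap
    rw [cupH_cl (p := 2) (q := 1) (n := 3) (by omega) hD]
    congr 1
    funext l
    exact cup_apc 2 1 l
  rw [← h3]
  exact hfin

end R3

end AS
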