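import Pool.Agent.Lib.AS.R3.Spec

/-!
# Intersections of chains
-/

set_option autoImplicit false

namespace AS

namespace R3

theorem rGch (h1 : S_Chn) : S_Gch := by
  intro 𝒞 hne hch
  constructor
  · intro Γ k hΓ hCs hOnt hB y
    obtain ⟨C, hC, x, hx⟩ := (h1 E4 Γ ∅ 𝒞 k (OkD.empty Γ) hne hch
      fun C hC => (hCs C hC).ok hΓ).1 y
    obtain ⟨z, hz⟩ := hOnt C hC (hCs C hC).sub x
    refine ⟨z, ?_⟩
    rw [← hx, ← hz]
    exact (res_res _ _ hB z).symm
  · intro hCs hGen h0 k y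
    obtain ⟨C, hC, x, hx⟩ := (h1 E4 (Pm E4) ∅ 𝒞 k (OkD.empty _) hne hch
      fun C hC => (hCs C hC).ok gp_Pm).1 y
    rcases hGen C hC (hCs C hC).zero k x with rfl | rfl
    · left
      rw [← hx, map_zero]
    · right
      rw [← hx]
      exact res_ap k (hCs C hC).zero (Set.sInter_subset_of_mem hC) h0

end R3

end AS
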