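import Pool.Agent.Lib.AS.R3.Spec

/-!
# Closed sets with the cohomology of a projective space (helper50)
-/

set_option autoImplicit false

namespace AS

namespace R3

/-- **Gn.** Closed sets with the cohomology of a projective space. -/
theorem rGn (h1 : S_Rm) (h2 : S_H3) (h3 : S_RP) : S_Gn := by
  intro X hX hcm hlow h0 k y
  by_cases hk : k ≤ 1
  · exact hlow h0 k y hk
  by_cases hk2 : k = 2
  · subst hk2
    obtain ⟨x, hx⟩ := h1 (Pm E4) X gp_Pm hX hcm ⟨_, h3.1⟩ hX.sub y
    rcases h3.2 zero_notMem_S 2 x with h | h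
    · left
      rw [← hx, h, map_zero]
    · right
      rw [← hx, h, res_ap 2 zero_notMem_S hX.sub h0]
  by_cases hXS : X = S
  · subst hXS
    exact h3.2 h0 k y
  · left
    exact h2 (Pm E4) X k gp_Pm hX (Or.inr ⟨by omega, hXS⟩) y

end R3

end AS
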