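import Pool.Agent.Lib.AS.R3.Spec

/-!
# Top cohomology of closed subsets of the three-sphere and of projective three-space
-/

set_option autoImplicit false

namespace AS

namespace R3

theorem one_lt_rank : 1 < Module.rank ℝ E4 := by
  rw [← Module.finrank_eq_rank, finrank_euclideanSpace_fin]
  norm_num

theorem preconn_S : IsPreconnected S := isPreconnected_sphere one_lt_rank _ _

theorem finite_gp {Γ : Subgroup (E4 ≃ᵢ E4)} (hΓ : GP Γ) : (Γ : Set (E4 ≃ᵢ E4)).Finite := by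
  rcases hΓ with rfl | rfl
  · exact (Set.finite_singleton (1 : E4 ≃ᵢ E4)).subset fun g hg => Subgroup.mem_bot.mp hg
  · refine (Set.toFinite {(1 : E4 ≃ᵢ E4), ng E4}).subset fun g hg => ?_
    rcases hg with rfl | rfl
    · exact Or.inl rfl
    · exact Or.inr rfl

theorem h3 (hCar : S_Car) (hSpl : S_Spl) (hBd : S_Bd) (hN1 : N1) : S_H3 := by
  intro Γ Z k hΓ hZ hk x
  by_contra hx
  obtain ⟨k', rfl⟩ : ∃ k', k = k' + 1 := ⟨k - 1, by omega⟩
  obtain ⟨Z', hZ', hok, hres, hmin⟩ := hCar E4 Γ Z (k' + 1) x (hZ.ok hΓ) hx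
  have hcs : Cs Γ Z' := ⟨hok.cpt.isClosed, hZ'.trans hZ.sub, hok.inv⟩
  -- every point of `Z'` has a neighbourhood in `S` which is in `Z'`
  have key : ∀ z ∈ Z', ∃ s₀ : ℝ, s₀ < 1 ∧ 0 ≤ s₀ ∧ ∀ s, s₀ < s → s < 1 →
      (¬ 3 ≤ k' ∧ Bd Γ z s ⊆ Z') := by
    intro z hz
    have hzS : z ∈ S := hcs.sub hz
    have hy : ∃ y ∈ Z', ht Γ z y < 1 := by
      by_contra hcon
      push Not at hcon
      apply hres
      refine hN1 E4 Γ ∅ Z' k' ?_ _
      refine ((finite_gp hΓ).image fun g => g z).subset fun y hy => ?_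
      obtain ⟨g, hg, h⟩ := ht_eq_one hΓ hzS (hcs.sub hy)
        (le_antisymm (ht_le_one Γ hzS (hcs.sub hy)) (hcon y hy))
      exact ⟨g, hg, h.symm⟩
    obtain ⟨y, hyZ, hy1⟩ := hy
    refine ⟨max (ht Γ z y) 0, max_lt hy1 one_pos, le_max_right _ _, fun s hs hs1 => ?_⟩
    have hs0 : 0 < s := (le_max_right _ _).trans_lt hs
    have hA : Cs Γ (Z' ∩ Cm Γ z s) := hcs.inter (cs_Cm hΓ z s)
    have hB : Cs Γ (Z' ∩ Cb Γ z s) := hcs.inter (cs_Cb hΓ z s)
    have hU : (Z' ∩ Cm Γ z s) ∪ (Z' ∩ Cb Γ z s) = Z' := by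
      rw [← Set.inter_union_distrib_left, Cm_union_Cb]
      exact Set.inter_eq_left.mpr hcs.sub
    obtain ⟨u, hu⟩ := hSpl E4 Γ Z Z' k' x hZ' (Z' ∩ Cm Γ z s) (Z' ∩ Cb Γ z s) hok hres hmin
      hA.cl hA.inv hB.cl hB.inv hU (by
        intro h
        have h1 : z ∈ Z' ∩ Cm Γ z s := by
          rw [h]
          exact hz
        have h2 := h1.2.2
        rw [ht_self Γ hzS] at h2
        linarith) (by
        intro h
        have h1 : y ∈ Z' ∩ Cb Γ z s := by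
          rw [h]
          exact hyZ
        have h2 := h1.2.2
        have h3 := (le_max_left (ht Γ z y) 0).trans_lt hs
        linarith)
    have hu0 : u ≠ 0 := by
      intro h
      refine hu 0 0 ?_
      rw [map_zero, map_zero, add_zero]
      exact h
    have hsub : (Z' ∩ Cm Γ z s) ∩ (Z' ∩ Cb Γ z s) ⊆ Bd Γ z s := by
      rw [← Cm_inter_Cb z s]
      exact fun y hy => ⟨hy.1.2, hy.2.2⟩
    refine ⟨fun h3 => hu0 (hBd Γ z s _ k' hΓ hzS hs0 hs1 (hA.inter hB) hsub (Or.inl h3) u), ?_⟩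
    by_contra hne
    refine hu0 (hBd Γ z s _ k' hΓ hzS hs0 hs1 (hA.inter hB) hsub
      (Or.inr ⟨by omega, fun h => hne ?_⟩) u)
    rw [← h]
    exact fun y hy => hy.1.1
  choose! s₀ hs1 hs0 hs using key
  have hnear : ∀ z ∈ Z', ∀ y ∈ S, s₀ z < ht Γ z y → y ∈ Z' := by
    intro z hz y hy hlt
    rcases lt_or_eq_of_le (ht_le_one Γ (hcs.sub hz) hy) with h1 | h1
    · exact (hs z hz _ hlt h1).2 ⟨hy, rfl⟩
    · obtain ⟨g, hg, rfl⟩ := ht_eq_one hΓ (hcs.sub hz) hy h1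
      exact hcs.inv g hg z hz
  have hne : Z'.Nonempty := by
    by_contra h
    exact hres (H_empty (Set.not_nonempty_iff_eq_empty.mp h) _)
  obtain ⟨z, hz⟩ := hne
  have hk3 : ¬ 3 ≤ k' := (hs z hz ((s₀ z + 1) / 2) (by have := hs1 z hz; linarith)
    (by have := hs1 z hz; linarith)).1
  have hZS : Z ≠ S := by
    rcases hk with h | h
    · omega
    · exact h.2
  apply hZS
  refine Set.Subset.antisymm hZ.sub ?_
  refine Set.Subset.trans ?_ hZ'
  by_contra hcon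
  obtain ⟨y, hyS, hyZ⟩ := Set.not_subset.mp hcon
  have hu : IsOpen (⋃ z ∈ Z', {y | s₀ z < ht Γ z y}) :=
    isOpen_biUnion fun z _ => isOpen_lt continuous_const (ht_cont Γ z)
  obtain ⟨w, hwS, hw1, hw2⟩ := preconn_S _ _ hu hcs.cl.isOpen_compl (by
    intro w hw
    by_cases h : w ∈ Z'
    · refine Or.inl (Set.mem_biUnion h ?_)
      change s₀ w < ht Γ w w
      rw [ht_self Γ hw]
      exact hs1 w h
    · exact Or.inr h) ⟨z, hcs.sub hz, Set.mem_biUnion hz (by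
        change s₀ z < ht Γ z z
        rw [ht_self Γ (hcs.sub hz)]
        exact hs1 z hz)⟩ ⟨y, hyS, hyZ⟩
  obtain ⟨v, hv, hvw⟩ := Set.mem_iUnion₂.mp hw1
  exact hw2 (hnear v hv w hwS hvw)

end R3

end AS
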