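import Pool.Agent.Lib.AS.R3.Spec

/-!
# Away from the equator: the induction isomorphism
-/

set_option autoImplicit false

namespace AS

namespace R3

/-- **Half.** -/
theorem rHalf (h1 : N3) : S_Half := by
  intro Γ p s Z k hΓ hZ hs hht
  rcases hΓ with rfl | rfl
  · have hF : Z ∩ {y | s ≤ inner ℝ p y} = Z := by
      refine Set.inter_eq_left.mpr fun y hy => ?_
      have h2 := hht y hy
      rw [ht_bot] at h2
      exact h2
    rw [hF]
    exact ⟨AddMonoidHom.id _, Function.injective_id⟩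
  · have hfin : ((Pm E4 : Subgroup (E4 ≃ᵢ E4)) : Set (E4 ≃ᵢ E4)).Finite := by
      refine (Set.toFinite ({1, ng E4} : Set (E4 ≃ᵢ E4))).subset ?_
      rintro g (rfl | rfl)
      · exact Set.mem_insert _ _
      · exact Set.mem_insert_of_mem _ rfl
    have hcpt : IsCompact (Z ∩ {y | s ≤ inner ℝ p y}) :=
      hZ.cpt.inter_right (isClosed_le continuous_const (by fun_prop))
    have h := h1 E4 (Pm E4) ⊥ ∅ Z (Z ∩ {y | s ≤ inner ℝ p y}) k bot_le Set.inter_subset_left
      hfin (IvS.empty _) hcpt (IvS.bot _) hZ.inv ?_ ?_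
    · exact ⟨_, h.1⟩
    · intro x hx
      obtain ⟨g, hg, h2⟩ := ht_orbit gp_Pm p x
      have h3 : s ≤ inner ℝ p (g x) := by
        rw [← h2]
        exact hht x hx
      refine ⟨g⁻¹, (Pm E4).inv_mem hg, g x, ⟨hZ.inv g hg x hx, h3⟩, ?_⟩
      rw [IsometryEquiv.inv_apply_self]
    · intro g hg hg' x hx hgx
      rcases hg with rfl | rfl
      · exact hg' (Subgroup.one_mem _)
      · have h2 : s ≤ inner ℝ p x := hx.2
        have h3 : s ≤ inner ℝ p (ng E4 x) := hgx.2
        rw [ng_apply, inner_neg_right] at h3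
        linarith

end R3

end AS
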