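import Pool.Agent.Lib.AS.R3.Spec
import Pool.Agent.Lib.AS.HC

/-!
# AS/R3, modules Hmt and Ctr: homotopy invariance, contractible compact sets
-/

set_option autoImplicit false

namespace AS

namespace R3

theorem rHmt : S_Hmt := by
  intro X Y _ _ Γ D C Γ' D' C' F n hC hF hA heq h0 h1 x
  refine pull_homotopy F hA heq ?_ h0 h1 n x
  have hu := (isCompact_Icc.prod hC).uniformContinuousOn_of_continuous hF
  rw [Metric.uniformContinuousOn_iff] at hu
  intro ε hε
  obtain ⟨δ, hδ, h2⟩ := hu ε hε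
  refine ⟨δ, hδ, fun s hs t ht hst x hx => ?_⟩
  refine h2 (s, x) ⟨hs, hx⟩ (t, x) ⟨ht, hx⟩ ?_
  rw [Prod.dist_eq]
  refine max_lt (by rw [Real.dist_eq]; exact hst) ?_
  rw [dist_self]
  exact hδ

theorem rCtr (n1 : N1) (n2 : N2) : S_Ctr := by
  intro X _ C F q n hC hq hF hm e0 e1 x
  exact (acy_of_contractible n1 n2 hq hC F hF hm e0 e1).2.2 n x

end R3

end AS
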