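import Pool.Agent.Lib.AS.R3.Spec

/-!
# Alexander-Spanier cohomology: compact sets which embed in `ℝⁿ` have no cohomology in degree `n`
-/

set_option autoImplicit false

namespace AS

namespace R3

theorem rLB (h1 : S_Car) (h2 : S_Spl) (h3 : N1) (h4 : N2) : S_LB := by
  intro X _ C n
  induction n generalizing C with
  | zero =>
    intro k g hC hg hinj hk _ x
    obtain ⟨k, rfl⟩ : ∃ m, k = m + 1 := ⟨k - 1, by omega⟩
    have hfin : C.Finite := by
      apply Set.Subsingleton.finite
      intro y hy z hz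
      exact hinj hy hz (Subsingleton.elim _ _)
    exact h3 X ⊥ ∅ C k hfin x
  | succ m ih =>
    intro k g hC hg hinj hk hnk x
    by_contra hx
    obtain ⟨k, rfl⟩ : ∃ m, k = m + 1 := ⟨k - 1, by omega⟩
    obtain ⟨Z, hZ, hok, hne, hmin⟩ :=
      h1 X ⊥ C (k + 1) x ⟨hC, IvS.bot C, Fr.bot C⟩ hx
    have hZnt : ∃ u ∈ Z, ∃ v ∈ Z, u ≠ v := by
      by_contra hno
      push Not at hno
      have hfin : Z.Finite := Set.Subsingleton.finite fun y hy z hz => hno y hy z hz
      exact hne (h3 X ⊥ ∅ Z k hfin _)
    obtain ⟨u, hu, v, hv, huv⟩ := hZnt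
    obtain ⟨i, hi⟩ : ∃ i, g u i ≠ g v i := by
      by_contra hno
      push Not at hno
      exact huv (hinj (hZ hu) (hZ hv) (funext hno))
    -- order the two points
    obtain ⟨u, hu, v, hv, hlt⟩ : ∃ u ∈ Z, ∃ v ∈ Z, g u i < g v i := by
      rcases lt_or_gt_of_ne hi with h | h
      · exact ⟨u, hu, v, hv, h⟩
      · exact ⟨v, hv, u, hu, h⟩
    obtain ⟨c, hc1, hc2⟩ := exists_between hlt
    have hgZ : ContinuousOn (fun y => g y i) Z :=
      (continuous_apply i).comp_continuousOn (hg.mono hZ)
    set A : Set X := Z ∩ (fun y => g y i) ⁻¹' Set.Iic c with hA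
    set B : Set X := Z ∩ (fun y => g y i) ⁻¹' Set.Ici c with hB
    have hAc : IsClosed A := hgZ.preimage_isClosed_of_isClosed hok.cpt.isClosed isClosed_Iic
    have hBc : IsClosed B := hgZ.preimage_isClosed_of_isClosed hok.cpt.isClosed isClosed_Ici
    have hAB : A ∪ B = Z := by
      ext y
      constructor
      · rintro (h | h) <;> exact h.1
      · intro h
        rcases le_total (g y i) c with h' | h'
        · exact Or.inl ⟨h, h'⟩
        · exact Or.inr ⟨h, h'⟩
    have hAZ : A ≠ Z := by
      intro h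
      have h5 : v ∈ A := h ▸ hv
      exact absurd h5.2 (not_le.2 hc2)
    have hBZ : B ≠ Z := by
      intro h
      have h5 : u ∈ B := h ▸ hu
      exact absurd h5.2 (not_le.2 hc1)
    obtain ⟨w, hw⟩ := h2 X ⊥ C Z k x hZ A B hok hne hmin hAc (IvS.bot A) hBc (IvS.bot B) hAB hAZ hBZ
    have hval : ∀ y ∈ A ∩ B, g y i = c := fun y hy => le_antisymm hy.1.2 hy.2.2
    have hABC : A ∩ B ⊆ C := fun y hy => hZ hy.1.1
    have hinj' : Set.InjOn (fun y (j : Fin m) => g y (i.succAbove j)) (A ∩ B) := by
      intro y hy z hz hyz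
      apply hinj (hABC hy) (hABC hz)
      funext j
      by_cases hj : j = i
      · rw [hj, hval y hy, hval z hz]
      · obtain ⟨j', rfl⟩ := Fin.exists_succAbove_eq hj
        exact congrFun hyz j'
    rcases Nat.eq_zero_or_pos k with hk0 | hk0
    · subst hk0
      have hm : m = 0 := by omega
      subst hm
      have hsub : (A ∩ B).Subsingleton := fun y hy z hz =>
        hinj' hy hz (Subsingleton.elim _ _)
      rcases (h4 X ⊥ (A ∩ B)).1 hsub.isPreconnected w with h | h
      · exact hw 0 0 (by rw [h, map_zero, map_zero, add_zero])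
      · refine hw (one ⊥ A) 0 ?_
        rw [h, map_zero, add_zero]
        exact (res_cl _ _).symm
    · have h0 := ih (A ∩ B) k (fun y j => g y (i.succAbove j))
        (hok.cpt.of_isClosed_subset (hAc.inter hBc) fun y hy => hy.1.1)
        (continuousOn_pi.2 fun j => (continuous_apply _).comp_continuousOn (hg.mono hABC))
        hinj' hk0 (by omega) w
      exact hw 0 0 (by rw [h0, map_zero, map_zero, add_zero])

end R3

end AS
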