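import Pool.Agent.Lib.AS.R3.Spec

/-!
# Orthonormal bases
-/

set_option autoImplicit false

namespace AS

namespace R3

private theorem onb_aux (p q : E4) (hp : ‖p‖ = 1) (hq : ‖q‖ = 1) (hpq : inner ℝ p q = (0 : ℝ)) :
    ∃ b : OrthonormalBasis (Fin 4) ℝ E4, b 0 = p ∧ b 1 = q := by
  have hcard : Module.finrank ℝ E4 = Fintype.card (Fin 4) := by simp
  let v : Fin 4 → E4 := fun i => if i = 0 then p else q
  have hv : Orthonormal ℝ (({0, 1} : Set (Fin 4)).domRestrict v) := by
    constructor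
    · rintro ⟨i, hi⟩
      rcases hi with rfl | hi
      · exact hp
      · have hi' : i = 1 := hi
        subst hi'
        exact hq
    · rintro ⟨i, hi⟩ ⟨j, hj⟩ hij
      have hi' : i = 0 ∨ i = 1 := hi
      have hj' : j = 0 ∨ j = 1 := hj
      rcases hi' with rfl | rfl <;> rcases hj' with rfl | rfl
      · exact absurd rfl hij
      · exact hpq
      · exact (real_inner_comm q p).symm ▸ hpq
      · exact absurd rfl hij
  obtain ⟨b, hb⟩ := hv.exists_orthonormalBasis_extension_of_card_eq hcard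
  exact ⟨b, hb 0 (Or.inl rfl), hb 1 (Or.inr rfl)⟩

theorem rOnb : S_Onb := by
  have h2 : ∀ p ∈ S, ∀ q ∈ S, inner ℝ p q = (0 : ℝ) →
      ∃ b : OrthonormalBasis (Fin 4) ℝ E4, b 0 = p ∧ b 1 = q := fun p hp q hq hpq =>
    onb_aux p q (mem_S.mp hp) (mem_S.mp hq) hpq
  refine ⟨fun p hp => ?_, h2⟩
  have hcard : Module.finrank ℝ E4 = Fintype.card (Fin 4) := by simp
  have hv : Orthonormal ℝ (({0} : Set (Fin 4)).domRestrict (fun _ => p)) := by
    constructor
    · rintro ⟨i, hi⟩
      exact mem_S.mp hp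
    · rintro ⟨i, hi⟩ ⟨j, hj⟩ hij
      have hi' : i = 0 := hi
      have hj' : j = 0 := hj
      subst hi'
      subst hj'
      exact absurd rfl hij
  obtain ⟨b, hb⟩ := hv.exists_orthonormalBasis_extension_of_card_eq hcard
  exact ⟨b, hb 0 rfl⟩

end R3

end AS
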