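import Pool.Agent.Lib.AS.R3.Spec

/-!
# The class `a` is zero if and only if the set is even
-/

set_option autoImplicit false

namespace AS

namespace R3

private theorem dd_pair' (ψ : List E4 → ZMod 2) (x y : E4) :
    dd ψ [x, y] = ψ [y] + ψ [x] := by
  simp [dd]

open Classical in
/-- the cochain of degree zero -/
private noncomputable def zc (X A : Set E4) : List E4 → ZMod 2
  | [x] => if x ∈ X then sg x + (if x ∈ A then 1 else 0) else 0
  | _ => 0

private theorem zmod2_cases (a : ZMod 2) : a = 0 ∨ a = 1 := by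
  revert a; decide

/-- **One.** -/
theorem rOne (m1 : M1) : S_One := by
  classical
  intro X h0 hX
  have hneg : ∀ x ∈ X, -x ∈ X := ivS_Pm.mp hX.inv
  have hx0 : ∀ x ∈ X, x ≠ 0 := fun x hx h => h0 (h ▸ hx)
  unfold ap
  rw [cl_eq_zero, mem_Bnd_succ, apc_one]
  constructor
  · rintro ⟨_, ψ, hψi, _, ε, hε, hψ⟩
    rw [iv_Pm] at hψi
    have key : ∀ x ∈ X, ∀ y ∈ X, dist x y < ε → sg x + ψ [x] = sg y + ψ [y] := by
      intro x hx y hy hxy
      have h1 := hψ [x, y] rfl ⟨?_, ?_⟩
      · rw [Pi.add_apply, dd_pair', aac_pair (hx0 x hx) (hx0 y hy)] at h1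
        have h2 : (sg x + ψ [x]) + (sg y + ψ [y]) = 0 := by
          rw [← h1]
          ring
        have h3 := eq_neg_of_add_eq_zero_left h2
        rw [ZMod.neg_eq_self_mod_two] at h3
        exact h3
      · intro z hz
        rw [List.mem_cons, List.mem_singleton] at hz
        rcases hz with rfl | rfl <;> assumption
      · intro z hz w hw
        rw [List.mem_cons, List.mem_singleton] at hz hw
        rcases hz with rfl | rfl <;> rcases hw with rfl | rfl
        · rwa [dist_self]
        · exact hxy
        · rwa [dist_comm]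
        · rwa [dist_self]
    refine ⟨{x | x ∈ X ∧ sg x + ψ [x] = 1}, fun x hx => hx.1, ?_, ?_⟩
    · apply isClosed_of_closure_subset
      intro x hx
      have hxX : x ∈ X := hX.cl.closure_subset_iff.mpr (fun y hy => hy.1) hx
      obtain ⟨y, hy, hxy⟩ := Metric.mem_closure_iff.mp hx ε hε
      exact ⟨hxX, by rw [key x hxX y hy.1 hxy]; exact hy.2⟩
    · intro y hy
      have h1 : ψ [-y] = ψ [y] := hψi [y]
      have h2 : sg (-y) + ψ [-y] = 1 + (sg y + ψ [y]) := by
        rw [h1, sg_neg (hx0 y hy)]
        ring
      constructor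
      · rintro ⟨_, h3⟩ ⟨_, h4⟩
        rw [h2, h3] at h4
        exact absurd h4 (by decide)
      · intro h3
        refine ⟨hy, ?_⟩
        rcases zmod2_cases (sg y + ψ [y]) with h4 | h4
        · exfalso
          apply h3
          refine ⟨hneg y hy, ?_⟩
          rw [h2, h4, add_zero]
        · exact h4
  · rintro ⟨A, hAX, hAc, hA⟩
    refine ⟨aac_iv, zc X A, ?_, Z0.empty 0 (Set.inter_empty X) _, ?_⟩
    · rw [iv_Pm]
      intro l
      rcases l with _ | ⟨x, _ | ⟨y, l⟩⟩
      · rfl
      · change (if -x ∈ X then sg (-x) + (if -x ∈ A then 1 else 0) else 0) =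
          (if x ∈ X then sg x + (if x ∈ A then 1 else 0) else 0)
        by_cases hx : x ∈ X
        · rw [if_pos hx, if_pos (hneg x hx), sg_neg (hx0 x hx)]
          by_cases hxA : x ∈ A
          · rw [if_pos hxA, if_neg ((hA x hx).mp hxA), add_zero, add_comm]
          · have h1 : -x ∈ A := by
              by_contra h
              exact hxA ((hA x hx).mpr h)
            rw [if_neg hxA, if_pos h1, add_zero]
            have h2 : 1 + sg x + 1 = (1 + 1) + sg x := by ring
            rw [h2, z2_add_self, zero_add]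
        · have hx' : -x ∉ X := fun h => hx (by simpa using hneg _ h)
          rw [if_neg hx, if_neg hx']
      · rfl
    · have hAcp : IsCompact A := hX.cpt.of_isClosed_subset hAc hAX
      have hA'c : IsClosed {x : E4 | x ∈ X ∧ -x ∈ A} :=
        hX.cl.inter (hAc.preimage continuous_neg)
      have hA'cp : IsCompact {x : E4 | x ∈ X ∧ -x ∈ A} :=
        hX.cpt.of_isClosed_subset hA'c fun x hx => hx.1
      obtain ⟨ε, hε, h1⟩ := m1 E4 A {x : E4 | x ∈ X ∧ -x ∈ A} hAcp hA'cp 1 one_pos
      have h2 : ∀ x ∈ A, ∀ y ∈ X, -y ∈ A → ε ≤ dist x y := by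
        intro x hx y hy hyA
        by_contra h
        obtain ⟨z, ⟨hz1, hz2, hz3⟩, _⟩ := h1 x hx y ⟨hy, hyA⟩ (not_le.mp h)
        exact (hA z hz2).mp hz1 hz3
      refine ⟨ε, hε, fun l hl hs => ?_⟩
      obtain ⟨x, y, rfl⟩ := List.length_eq_two.mp hl
      have hx : x ∈ X := hs.1 x (by simp)
      have hy : y ∈ X := hs.1 y (by simp)
      have hxy : dist x y < ε := hs.2 x (by simp) y (by simp)
      have h3 : x ∈ A ↔ y ∈ A := by
        constructor
        · intro h
          by_contra hyA
          have h4 : -y ∈ A := by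
            by_contra h5
            exact hyA ((hA y hy).mpr h5)
          exact absurd hxy (not_lt.mpr (h2 x h y hy h4))
        · intro h
          by_contra hxA
          have h4 : -x ∈ A := by
            by_contra h5
            exact hxA ((hA x hx).mpr h5)
          rw [dist_comm] at hxy
          exact absurd hxy (not_lt.mpr (h2 y h x hx h4))
      rw [Pi.add_apply, dd_pair', aac_pair (hx0 x hx) (hx0 y hy)]
      change sg x + sg y + ((if y ∈ X then sg y + (if y ∈ A then 1 else 0) else 0) +
        (if x ∈ X then sg x + (if x ∈ A then 1 else 0) else 0)) = 0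
      rw [if_pos hx, if_pos hy]
      simp only [h3]
      generalize (if y ∈ A then (1 : ZMod 2) else 0) = c
      have h5 := z2_add_self (sg x + sg y + c)
      rw [← h5]
      ring

end R3

end AS
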