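import Pool.Agent.Lib.AS.R3.Spec

/-!
# Powers of the class `a` (helper50)
-/

set_option autoImplicit false

namespace AS

namespace R3

/-- **Pow.** If `a^i = 0` then `a^j = 0` for `i ≤ j`. -/
theorem rPow : S_Pow := by
  intro X h0 i j hij h
  have hD : X ∩ (∅ : Set E4) ⊆ (∅ : Set E4) ∨ X ∩ (∅ : Set E4) ⊆ (∅ : Set E4) :=
    Or.inl Set.inter_subset_right
  have h1 : cupH (∅ : Set E4) j (ap i X h0) (ap (j - i) X h0) = ap j X h0 := by
    unfold ap
    rw [cupH_cl (p := i) (q := j - i) (n := j) (by omega) hD]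
    congr 1
    funext l
    rw [cup_apc, Nat.add_sub_cancel' hij]
  rw [← h1, h]
  exact cupH_zero_left (by omega) hD _

end R3

end AS
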