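import Pool.Agent.Lib.AS.R3.Spec

/-!
# Complements of connected open sets: restriction in degree two is onto
-/

set_option autoImplicit false

namespace AS

namespace R3

theorem ont_sInter (hChn : S_Chn) {Γ : Subgroup (E4 ≃ᵢ E4)} (hΓ : GP Γ) {𝒞 : Set (Set E4)}
    (hne : 𝒞.Nonempty) (hch : IsChain (· ⊆ ·) 𝒞) (hcs : ∀ C ∈ 𝒞, Cs Γ C)
    (hont : ∀ C ∈ 𝒞, Ont Γ 2 C) : Ont Γ 2 (⋂₀ 𝒞) := by
  intro h y
  obtain ⟨C, hC, x, hx⟩ := (hChn E4 Γ ∅ 𝒞 2 (OkD.empty Γ) hne hch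
    (fun C hC => (hcs C hC).ok hΓ)).1 y
  obtain ⟨x', hx'⟩ := hont C hC (hcs C hC).sub x
  refine ⟨x', ?_⟩
  rw [← hx, ← hx', res_res]

theorem rm (hChn : S_Chn) (hBd : S_Bd) (hCap : S_Cap) (hH3 : S_H3) (hS2 : S_S2) (h6 : M6)
    (h8 : M8) (h9 : M9) (h10 : M10) : S_Rm := by
  intro Γ X hΓ hX hmod hx3
  let 𝒵 : Set (Set E4) := {Z | Cs Γ Z ∧ X ⊆ Z ∧ Ont Γ 2 Z}
  have hS : S ∈ 𝒵 := ⟨cs_S hΓ, hX.sub, fun h y => ⟨y, res_self h y⟩⟩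
  obtain ⟨Z, -, hZmin⟩ := zorn_superset_nonempty 𝒵 (by
    intro 𝒞 hc hch hne
    refine ⟨⋂₀ 𝒞, ⟨Cs.sInter (fun C hC => (hc hC).1) hne, ?_, ?_⟩, fun s hs =>
      Set.sInter_subset_of_mem hs⟩
    · exact Set.subset_sInter fun C hC => (hc hC).2.1
    · exact ont_sInter hChn hΓ hne hch (fun C hC => (hc hC).1) fun C hC => (hc hC).2.2) S hS
  obtain ⟨hZ1, hZ2, hZ3⟩ := hZmin.1
  have hle : ∀ Z₁ : Set E4, Z₁ ∈ 𝒵 → Z₁ ⊆ Z → Z ⊆ Z₁ := fun Z₁ h1 h2 => hZmin.2 h1 h2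
  -- the parts of `X` far from `z`
  have hXm : ∀ z s₀, (∀ y ∈ S, s₀ ≤ ht Γ z y → y ∉ X) → ∀ s, s₀ ≤ s → X ⊆ Cm Γ z s := by
    intro z s₀ h0 s hs x hx
    refine ⟨hX.sub hx, ?_⟩
    by_contra hlt
    exact h0 x (hX.sub hx) (hs.trans (not_le.mp hlt).le) hx
  -- (A)
  have hA : ∀ z ∈ Z, ∀ s₀, 0 < s₀ → (∀ y ∈ S, s₀ ≤ ht Γ z y → y ∉ X) → ∀ s, s₀ ≤ s → s < 1 →
      Bd Γ z s ⊆ Z := by
    intro z hz s₀ hs₀ h0 s hs hs1
    by_contra hne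
    have hI : Z ∩ Bd Γ z s = (Z ∩ Cm Γ z s) ∩ (Z ∩ Cb Γ z s) := by
      rw [← Cm_inter_Cb z s]
      ext y
      simp only [Set.mem_inter_iff]
      tauto
    have hU : Z = (Z ∩ Cm Γ z s) ∪ (Z ∩ Cb Γ z s) := by
      rw [← Set.inter_union_distrib_left, Cm_union_Cb]
      exact (Set.inter_eq_left.mpr hZ1.sub).symm
    have hc1 : Cs Γ (Z ∩ Cm Γ z s) := hZ1.inter (cs_Cm hΓ z s)
    have hc2 : Cs Γ (Z ∩ Cb Γ z s) := hZ1.inter (cs_Cb hΓ z s)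
    have hMV : MVs Γ ∅ (Z ∩ Cm Γ z s) (Z ∩ Cb Γ z s) (Z ∩ Bd Γ z s) Z :=
      ⟨OkD.empty Γ, hc1.ok hΓ, hc2.ok hΓ, hI, hU⟩
    have hI0 : ∀ x : H Γ ∅ 2 (Z ∩ Bd Γ z s), x = 0 := by
      refine hBd Γ z s (Z ∩ Bd Γ z s) 2 hΓ (hZ1.sub hz) (hs₀.trans_le hs) hs1
        (hZ1.inter (cs_Bd hΓ z s)) Set.inter_subset_right (Or.inr ⟨le_rfl, fun h => hne ?_⟩)
      rw [← h]
      exact Set.inter_subset_left
    have hmem : Z ∩ Cm Γ z s ∈ 𝒵 := by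
      refine ⟨hc1, Set.subset_inter hZ2 (hXm z s₀ h0 s hs), fun h y => ?_⟩
      obtain ⟨w, hw, -⟩ := h10 E4 Γ ∅ _ _ _ _ 2 hMV y 0 (by rw [hI0 (res _ 2 y), hI0 (res _ 2 0)])
      obtain ⟨x, hx⟩ := hZ3 hZ1.sub w
      refine ⟨x, ?_⟩
      rw [← hw, ← hx, res_res]
    have h1 := (hle _ hmem Set.inter_subset_left hz).2.2
    rw [ht_self Γ (hZ1.sub hz)] at h1
    linarith
  -- (B)
  have hnear : ∀ z ∈ Z, ∀ s₀, 0 < s₀ → (∀ y ∈ S, s₀ ≤ ht Γ z y → y ∉ X) → ∀ y ∈ S,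
      s₀ < ht Γ z y → y ∈ Z := by
    intro z hz s₀ hs₀ h0 y hy hlt
    rcases lt_or_eq_of_le (ht_le_one Γ (hZ1.sub hz) hy) with h1 | h1
    · exact hA z hz s₀ hs₀ h0 _ hlt.le h1 ⟨hy, rfl⟩
    · obtain ⟨g, hg, rfl⟩ := ht_eq_one hΓ (hZ1.sub hz) hy h1
      exact hZ1.inv g hg z hz
  have hBcl : IsClosed (X ∪ (S \ Z)) := by
    rw [← isOpen_compl_iff, isOpen_iff_mem_nhds]
    intro z hz
    by_cases hzS : z ∈ S
    · have hzX : z ∉ X := fun h => hz (Or.inl h)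
      have hzZ : z ∈ Z := by
        by_contra h
        exact hz (Or.inr ⟨hzS, h⟩)
      obtain ⟨s₀, hs₀, hs₁, h0⟩ := ht_near hΓ hzS hX.cl hX.inv hzX
      have hop : IsOpen {y | s₀ < ht Γ z y} := isOpen_lt continuous_const (ht_cont Γ z)
      refine Filter.mem_of_superset (hop.mem_nhds ?_) ?_
      · change s₀ < ht Γ z z
        rw [ht_self Γ hzS]
        exact hs₁
      · rintro y hy (h | h)
        · exact h0 y (hX.sub h) (le_of_lt hy) h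
        · exact h.2 (hnear z hzZ s₀ hs₀ h0 y h.1 hy)
    · refine Filter.mem_of_superset (isClosed_S.isOpen_compl.mem_nhds hzS) ?_
      rintro y hy (h | h)
      · exact hy (hX.sub h)
      · exact hy h.1
  have hBinv : IvS Γ (X ∪ (S \ Z)) := by
    rintro g hg y (hy | hy)
    · exact Or.inl (hX.inv g hg y hy)
    · exact Or.inr ⟨(cs_S hΓ).inv g hg y hy.1, fun h => hy.2 ((hZ1.inv.iff hg y).mp h)⟩
  have hcases := hmod Z (X ∪ (S \ Z)) hZ1.cl hBcl hZ1.inv hBinv (by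
    ext y
    constructor
    · rintro (h | h | h)
      · exact hZ1.sub h
      · exact hX.sub h
      · exact h.1
    · intro h
      by_cases hy : y ∈ Z
      · exact Or.inl hy
      · exact Or.inr (Or.inr ⟨h, hy⟩)) (by
    ext y
    constructor
    · rintro ⟨h, h' | h'⟩
      · exact h'
      · exact (h'.2 h).elim
    · exact fun h => ⟨hZ2 h, Or.inl h⟩)
  rcases hcases with hcase | hcase
  · rw [← hcase]
    exact hZ3
  · -- (C)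
    have hZS : Z = S := by
      refine Set.Subset.antisymm hZ1.sub fun y hy => ?_
      by_contra h
      have : y ∈ X := by
        rw [← hcase]
        exact Or.inr ⟨hy, h⟩
      exact h (hZ2 this)
    by_cases hXS : X = S
    · rw [hXS]
      exact fun h y => ⟨y, res_self h y⟩
    exfalso
    obtain ⟨z, hzS, hzX⟩ : ∃ z ∈ S, z ∉ X := by
      by_contra hcon
      push Not at hcon
      exact hXS (Set.Subset.antisymm hX.sub hcon)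
    obtain ⟨s, hs0, hs1, h0⟩ := ht_near hΓ hzS hX.cl hX.inv hzX
    have hMV : MVs Γ ∅ (Cm Γ z s) (Cb Γ z s) (Bd Γ z s) S :=
      ⟨OkD.empty Γ, (cs_Cm hΓ z s).ok hΓ, (cs_Cb hΓ z s).ok hΓ, (Cm_inter_Cb z s).symm,
        (Cm_union_Cb z s).symm⟩
    have hzm : z ∉ Cm Γ z s := by
      intro h
      have := h.2
      rw [ht_self Γ hzS] at this
      linarith
    obtain ⟨x₀, hx₀⟩ := hx3
    obtain ⟨u₀, hu₀⟩ := (h8 E4 Γ ∅ _ _ _ _ 2 hMV).1 x₀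
      (hH3 Γ (Cm Γ z s) 3 hΓ (cs_Cm hΓ z s)
        (Or.inr ⟨le_rfl, fun h => hzm (h.symm ▸ hzS)⟩) _)
      (hCap.2 Γ hΓ z hzS s hs0 2 _)
    have hmem : Cm Γ z s ∈ 𝒵 := by
      refine ⟨cs_Cm hΓ z s, hXm z s h0 s le_rfl, fun h y => ?_⟩
      have hw : res hMV.IA 2 y = 0 := by
        have hd : del Γ ∅ (Cm Γ z s) (Cb Γ z s) (Bd Γ z s) S 2 (res hMV.IA 2 y) = 0 :=
          (h9 E4 Γ ∅ _ _ _ _ 2 hMV).2.1 y
        rcases hS2 Γ z s hΓ hzS hs0 hs1 u₀ (res hMV.IA 2 y) with h1 | h1 | h1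
        · exfalso
          apply hx₀
          rw [hu₀, h1]
          exact (h6 E4 Γ ∅ _ _ _ _ 2 hMV).2.2
        · exact h1
        · exfalso
          apply hx₀
          rw [hu₀, h1]
          exact hd
      obtain ⟨w, hw', -⟩ := h10 E4 Γ ∅ _ _ _ _ 2 hMV y 0 (by rw [hw, map_zero])
      exact ⟨w, hw'⟩
    have h1 : Z ⊆ Cm Γ z s := hle _ hmem (by rw [hZS]; exact (cs_Cm hΓ z s).sub)
    exact hzm (h1 (by rw [hZS]; exact hzS))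

end R3

end AS
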