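import Pool.Agent.Lib.AS.R3.Spec

/-!
# S2: the second cohomology of a round two-sphere has at most two elements
-/

set_option autoImplicit false

namespace AS

namespace R3

private theorem z2c (a : ZMod 2) : a = 0 ∨ a = 1 := by
  revert a
  decide

/-- two orthonormal coordinates systems: points of the sphere which agree in all coordinates except one -/
private theorem inj_of (b : OrthonormalBasis (Fin 4) ℝ E4) (i : Fin 4) {y y' : E4} (hy : y ∈ S)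
    (hy' : y' ∈ S) (h : ∀ j, j ≠ i → inner ℝ (b j) y = inner ℝ (b j) y')
    (hi : 0 ≤ inner ℝ (b i) y * inner ℝ (b i) y') : y = y' := by
  have hn : ∑ j, (inner ℝ (b j) y : ℝ) ^ 2 = ∑ j, (inner ℝ (b j) y' : ℝ) ^ 2 := by
    have h1 := b.sum_sq_norm_inner_right y
    have h2 := b.sum_sq_norm_inner_right y'
    rw [mem_S.mp hy] at h1
    rw [mem_S.mp hy'] at h2
    have h3 := h1.trans h2.symm
    simpa only [Real.norm_eq_abs, sq_abs] using h3
  have h4 : (inner ℝ (b i) y : ℝ) ^ 2 = inner ℝ (b i) y' ^ 2 := by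
    rw [← Finset.add_sum_erase _ _ (Finset.mem_univ i),
      ← Finset.add_sum_erase _ (fun j => (inner ℝ (b j) y' : ℝ) ^ 2) (Finset.mem_univ i)] at hn
    have h5 : ∑ j ∈ Finset.univ.erase i, (inner ℝ (b j) y : ℝ) ^ 2 =
        ∑ j ∈ Finset.univ.erase i, (inner ℝ (b j) y' : ℝ) ^ 2 :=
      Finset.sum_congr rfl fun j hj => by rw [h j (Finset.ne_of_mem_erase hj)]
    rw [h5] at hn
    exact add_right_cancel hn
  have h6 : (inner ℝ (b i) y : ℝ) = inner ℝ (b i) y' := by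
    rcases sq_eq_sq_iff_eq_or_eq_neg.1 h4 with h7 | h7
    · exact h7
    · rw [h7] at hi ⊢
      have h8 : (inner ℝ (b i) y' : ℝ) = 0 := by nlinarith
      rw [h8, neg_zero]
  refine b.repr.injective ?_
  ext j
  rw [b.repr_apply_apply, b.repr_apply_apply]
  by_cases hj : j = i
  · rw [hj]
    exact h6
  · exact h j hj

private theorem cl_const {I : Set E4} {p q : E4} (hI : ∀ y ∈ I, y = p ∨ y = q)
    {φ : List E4 → ZMod 2} (h : φ ∈ Cyc (⊥ : Subgroup (E4 ≃ᵢ E4)) ∅ 0 I)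
    (hpq : φ [p] + φ [q] = 0) : cl φ h = 0 ∨ cl φ h = one ⊥ I := by
  have hq : φ [q] = φ [p] := by
    rcases z2c (φ [p]) with h1 | h1 <;> rcases z2c (φ [q]) with h2 | h2
    · rw [h1, h2]
    · rw [h1, h2] at hpq
      exact absurd hpq (by decide)
    · rw [h1, h2] at hpq
      exact absurd hpq (by decide)
    · rw [h1, h2]
  have hc : ∀ y ∈ I, φ [y] = φ [p] := by
    intro y hy
    rcases hI y hy with h1 | h1
    · rw [h1]
    · rw [h1, hq]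
  rcases z2c (φ [p]) with h0 | h0
  · left
    rw [cl_eq_zero, mem_Bnd_zero]
    refine ⟨h.1, 1, one_pos, fun l hl hs => ?_⟩
    obtain ⟨y, rfl⟩ := List.length_eq_one_iff.mp hl
    rw [hc y (hs.1 y List.mem_cons_self), h0]
  · right
    unfold one
    rw [cl_eq_cl, mem_Bnd_zero]
    refine ⟨h.1.add fun _ _ _ => rfl, 1, one_pos, fun l hl hs => ?_⟩
    obtain ⟨y, rfl⟩ := List.length_eq_one_iff.mp hl
    rw [Pi.add_apply, hc y (hs.1 y List.mem_cons_self), h0]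
    decide

private theorem pairs {I : Set E4} {p q : E4} (hI : ∀ y ∈ I, y = p ∨ y = q)
    (w w' : H (⊥ : Subgroup (E4 ≃ᵢ E4)) ∅ 0 I) :
    (w = 0 ∨ w = one ⊥ I) ∨ (w' = 0 ∨ w' = one ⊥ I) ∨ (w + w' = 0 ∨ w + w' = one ⊥ I) := by
  obtain ⟨φ, hφ, rfl⟩ := cl_surj w
  obtain ⟨ψ, hψ, rfl⟩ := cl_surj w'
  rcases z2c (φ [p] + φ [q]) with h1 | h1
  · exact Or.inl (cl_const hI hφ h1)
  rcases z2c (ψ [p] + ψ [q]) with h2 | h2
  · exact Or.inr (Or.inl (cl_const hI hψ h2))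
  refine Or.inr (Or.inr ?_)
  rw [← cl_add]
  refine cl_const hI _ ?_
  have h3 : (φ + ψ) [p] + (φ + ψ) [q] = (φ [p] + φ [q]) + (ψ [p] + ψ [q]) := by
    rw [Pi.add_apply, Pi.add_apply]
    ring
  rw [h3, h1, h2]
  decide

/-- the general step -/
private theorem stp (h5 : M8) {A B I U : Set E4} (k : ℕ)
    (h : MVs (⊥ : Subgroup (E4 ≃ᵢ E4)) ∅ A B I U)
    (hA : ∀ a : H (⊥ : Subgroup (E4 ≃ᵢ E4)) ∅ (k + 1) A, a = 0)
    (hB : ∀ a : H (⊥ : Subgroup (E4 ≃ᵢ E4)) ∅ (k + 1) B, a = 0)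
    (hI : ∀ u u' : H (⊥ : Subgroup (E4 ≃ᵢ E4)) ∅ k I, del ⊥ ∅ A B I U k u = 0 ∨
      del ⊥ ∅ A B I U k u' = 0 ∨ del ⊥ ∅ A B I U k u = del ⊥ ∅ A B I U k u') :
    ∀ x x' : H (⊥ : Subgroup (E4 ≃ᵢ E4)) ∅ (k + 1) U, x = 0 ∨ x' = 0 ∨ x = x' := by
  intro x x'
  obtain ⟨u, hu⟩ := (h5 E4 ⊥ ∅ A B I U k h).1 x (hA _) (hB _)
  obtain ⟨u', hu'⟩ := (h5 E4 ⊥ ∅ A B I U k h).1 x' (hA _) (hB _)
  rw [hu, hu']
  exact hI u u'

private theorem mvs_of {T A B : Set E4} (hT : IsCompact T) (hA : IsClosed A) (hB : IsClosed B)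
    (hU : ∀ y, y ∈ A ∨ y ∈ B) :
    MVs (⊥ : Subgroup (E4 ≃ᵢ E4)) ∅ (T ∩ A) (T ∩ B) ((T ∩ A) ∩ (T ∩ B)) T := by
  refine ⟨OkD.empty _, ⟨hT.inter_right hA, IvS.bot _, Fr.bot _⟩,
    ⟨hT.inter_right hB, IvS.bot _, Fr.bot _⟩, rfl, ?_⟩
  ext y
  constructor
  · intro hy
    rcases hU y with h | h
    · exact Or.inl ⟨hy, h⟩
    · exact Or.inr ⟨hy, h⟩
  · rintro (h | h)
    · exact h.1
    · exact h.1

section coords

variable (b : OrthonormalBasis (Fin 4) ℝ E4)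

private theorem cont_co (i : Fin 4) : Continuous fun y : E4 => (inner ℝ (b i) y : ℝ) := by
  fun_prop

/-- the circle -/
private theorem circ (h3 : S_LB) (h4 : M6) (h5 : M8) (h6 : M9) {T : Set E4} (hT : IsCompact T)
    {s : ℝ} (hTs : ∀ y ∈ T, y ∈ S ∧ inner ℝ (b 0) y = s ∧ inner ℝ (b 1) y = (0 : ℝ)) :
    ∀ x x' : H (⊥ : Subgroup (E4 ≃ᵢ E4)) ∅ 1 T, x = 0 ∨ x' = 0 ∨ x = x' := by
  have hc := cont_co b 2
  have hP : IsClosed {y : E4 | (0 : ℝ) ≤ inner ℝ (b 2) y} := isClosed_le continuous_const hc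
  have hN : IsClosed {y : E4 | inner ℝ (b 2) y ≤ (0 : ℝ)} := isClosed_le hc continuous_const
  have hmv := mvs_of hT hP hN fun y => le_total (0 : ℝ) (inner ℝ (b 2) y)
  have hvan : ∀ A : Set E4, IsCompact A → A ⊆ T → (∀ y ∈ A, ∀ y' ∈ A,
      0 ≤ (inner ℝ (b 2) y : ℝ) * inner ℝ (b 2) y') →
      ∀ a : H (⊥ : Subgroup (E4 ≃ᵢ E4)) ∅ (0 + 1) A, a = 0 := by
    intro A hA hAT hs a
    refine h3 E4 A 1 1 (fun y _ => inner ℝ (b 3) y) hA ?_ ?_ le_rfl le_rfl a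
    · have := cont_co b 3
      exact (continuous_pi fun _ => this).continuousOn
    · intro y hy y' hy' hyy
      have e1 := hTs y (hAT hy)
      have e2 := hTs y' (hAT hy')
      refine inj_of b 2 e1.1 e2.1 (fun j hj => ?_) (hs y hy y' hy')
      have h3' : (inner ℝ (b 3) y : ℝ) = inner ℝ (b 3) y' := congrFun hyy 0
      fin_cases j
      · exact e1.2.1.trans e2.2.1.symm
      · exact e1.2.2.trans e2.2.2.symm
      · exact absurd rfl hj
      · exact h3'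
  refine stp h5 0 hmv (hvan _ hmv.okA.cpt Set.inter_subset_left ?_)
    (hvan _ hmv.okB.cpt Set.inter_subset_left ?_) ?_
  · rintro y ⟨-, hy⟩ y' ⟨-, hy'⟩
    exact mul_nonneg hy hy'
  · rintro y ⟨-, hy⟩ y' ⟨-, hy'⟩
    exact mul_nonneg_of_nonpos_of_nonpos hy hy'
  · set I : Set E4 := (T ∩ {y : E4 | (0 : ℝ) ≤ inner ℝ (b 2) y}) ∩
      (T ∩ {y : E4 | inner ℝ (b 2) y ≤ (0 : ℝ)}) with hI
    have hI2 : ∀ y ∈ I, y ∈ S ∧ inner ℝ (b 0) y = s ∧ inner ℝ (b 1) y = (0 : ℝ) ∧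
        inner ℝ (b 2) y = (0 : ℝ) := by
      rintro y ⟨⟨hy, hy1⟩, -, hy2⟩
      have e1 := hTs y hy
      exact ⟨e1.1, e1.2.1, e1.2.2, le_antisymm hy2 hy1⟩
    have hinj : ∀ y ∈ I, ∀ y' ∈ I, 0 ≤ (inner ℝ (b 3) y : ℝ) * inner ℝ (b 3) y' → y = y' := by
      intro y hy y' hy' hyy
      have e1 := hI2 y hy
      have e2 := hI2 y' hy'
      refine inj_of b 3 e1.1 e2.1 (fun j hj => ?_) hyy
      fin_cases j
      · exact e1.2.1.trans e2.2.1.symm
      · exact e1.2.2.1.trans e2.2.2.1.symm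
      · exact e1.2.2.2.trans e2.2.2.2.symm
      · exact absurd rfl hj
    obtain ⟨p, q, hpq⟩ : ∃ p q, ∀ y ∈ I, y = p ∨ y = q := by
      by_cases hne : ∃ y₀ ∈ I, ∃ y₁ ∈ I, y₀ ≠ y₁
      · obtain ⟨y₀, h0, y₁, h1, h01⟩ := hne
        refine ⟨y₀, y₁, fun y hy => ?_⟩
        by_contra hcon
        push Not at hcon
        have a1 : (inner ℝ (b 3) y : ℝ) * inner ℝ (b 3) y₀ < 0 := by
          by_contra hc
          push Not at hc
          exact hcon.1 (hinj y hy y₀ h0 hc)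
        have a2 : (inner ℝ (b 3) y : ℝ) * inner ℝ (b 3) y₁ < 0 := by
          by_contra hc
          push Not at hc
          exact hcon.2 (hinj y hy y₁ h1 hc)
        apply h01
        refine hinj y₀ h0 y₁ h1 ?_
        have a3 := mul_pos_of_neg_of_neg a1 a2
        by_contra hc
        push Not at hc
        have a4 : (inner ℝ (b 3) y : ℝ) * inner ℝ (b 3) y₀ * (inner ℝ (b 3) y * inner ℝ (b 3) y₁)
            = inner ℝ (b 3) y ^ 2 * (inner ℝ (b 3) y₀ * inner ℝ (b 3) y₁) := by ring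
        rw [a4] at a3
        have a5 := mul_nonpos_of_nonneg_of_nonpos (sq_nonneg (inner ℝ (b 3) y : ℝ)) hc.le
        linarith
      · push Not at hne
        rcases I.eq_empty_or_nonempty with hE | ⟨y₀, h0⟩
        · refine ⟨0, 0, fun y hy => ?_⟩
          rw [hE] at hy
          exact hy.elim
        · exact ⟨y₀, y₀, fun y hy => Or.inl (hne y hy y₀ h0)⟩
    have hM6 := h4 E4 ⊥ ∅ _ _ _ _ 0 hmv
    have hM9 := h6 E4 ⊥ ∅ _ _ _ _ 0 hmv
    have hone : del ⊥ ∅ (T ∩ {y : E4 | (0 : ℝ) ≤ inner ℝ (b 2) y})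
        (T ∩ {y : E4 | inner ℝ (b 2) y ≤ (0 : ℝ)}) I T 0 (one ⊥ I) = 0 := by
      have e1 := hM9.2.1 (one ⊥ _)
      unfold one at e1 ⊢
      rw [res_cl] at e1
      exact e1
    have hz : ∀ w : H (⊥ : Subgroup (E4 ≃ᵢ E4)) ∅ 0 I, w = 0 ∨ w = one ⊥ I →
        del ⊥ ∅ (T ∩ {y : E4 | (0 : ℝ) ≤ inner ℝ (b 2) y})
        (T ∩ {y : E4 | inner ℝ (b 2) y ≤ (0 : ℝ)}) I T 0 w = 0 := by
      rintro w (hw | hw)
      · rw [hw]
        exact hM6.2.2
      · rw [hw]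
        exact hone
    intro w w'
    rcases pairs hpq w w' with h | h | h
    · exact Or.inl (hz w h)
    · exact Or.inr (Or.inl (hz w' h))
    · refine Or.inr (Or.inr ?_)
      rw [eq_iff_add, ← hM6.2.1]
      exact hz _ h

/-- the two-sphere -/
private theorem sph2 (h3 : S_LB) (h4 : M6) (h5 : M8) (h6 : M9) {T : Set E4} (hT : IsCompact T)
    {s : ℝ} (hTs : ∀ y ∈ T, y ∈ S ∧ inner ℝ (b 0) y = s) :
    ∀ x x' : H (⊥ : Subgroup (E4 ≃ᵢ E4)) ∅ 2 T, x = 0 ∨ x' = 0 ∨ x = x' := by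
  have hc := cont_co b 1
  have hP : IsClosed {y : E4 | (0 : ℝ) ≤ inner ℝ (b 1) y} := isClosed_le continuous_const hc
  have hN : IsClosed {y : E4 | inner ℝ (b 1) y ≤ (0 : ℝ)} := isClosed_le hc continuous_const
  have hmv := mvs_of hT hP hN fun y => le_total (0 : ℝ) (inner ℝ (b 1) y)
  have hvan : ∀ A : Set E4, IsCompact A → A ⊆ T → (∀ y ∈ A, ∀ y' ∈ A,
      0 ≤ (inner ℝ (b 1) y : ℝ) * inner ℝ (b 1) y') →
      ∀ a : H (⊥ : Subgroup (E4 ≃ᵢ E4)) ∅ (1 + 1) A, a = 0 := by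
    intro A hA hAT hs a
    refine h3 E4 A 2 2 (fun y => ![inner ℝ (b 2) y, inner ℝ (b 3) y]) hA ?_ ?_ (by norm_num)
      le_rfl a
    · have e2 := cont_co b 2
      have e3 := cont_co b 3
      refine (continuous_pi fun i => ?_).continuousOn
      fin_cases i
      · exact e2
      · exact e3
    · intro y hy y' hy' hyy
      have e1 := hTs y (hAT hy)
      have e2 := hTs y' (hAT hy')
      refine inj_of b 1 e1.1 e2.1 (fun j hj => ?_) (hs y hy y' hy')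
      have h2' : (inner ℝ (b 2) y : ℝ) = inner ℝ (b 2) y' := congrFun hyy 0
      have h3' : (inner ℝ (b 3) y : ℝ) = inner ℝ (b 3) y' := congrFun hyy 1
      fin_cases j
      · exact e1.2.trans e2.2.symm
      · exact absurd rfl hj
      · exact h2'
      · exact h3'
  have hIc : IsCompact ((T ∩ {y : E4 | (0 : ℝ) ≤ inner ℝ (b 1) y}) ∩
      (T ∩ {y : E4 | inner ℝ (b 1) y ≤ (0 : ℝ)})) := hmv.okA.cpt.inter hmv.okB.cpt
  have hI := circ b h3 h4 h5 h6 hIc (s := s) (by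
    rintro y ⟨⟨hy, hy1⟩, -, hy2⟩
    exact ⟨(hTs y hy).1, (hTs y hy).2, le_antisymm hy2 hy1⟩)
  refine stp h5 1 hmv (hvan _ hmv.okA.cpt Set.inter_subset_left ?_)
    (hvan _ hmv.okB.cpt Set.inter_subset_left ?_) ?_
  · rintro y ⟨-, hy⟩ y' ⟨-, hy'⟩
    exact mul_nonneg hy hy'
  · rintro y ⟨-, hy⟩ y' ⟨-, hy'⟩
    exact mul_nonneg_of_nonpos_of_nonpos hy hy'
  · have hM6 := h4 E4 ⊥ ∅ _ _ _ _ 1 hmv
    intro u u'
    rcases hI u u' with h | h | h
    · left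
      rw [h]
      exact hM6.2.2
    · right
      left
      rw [h]
      exact hM6.2.2
    · right
      right
      rw [h]

end coords

theorem rS2 (h1 : S_Half) (h2 : S_Onb) (h3 : S_LB) (h4 : M6) (h5 : M8) (h6 : M9) : S_S2 := by
  intro Γ p s hΓ hp hs _ x y
  obtain ⟨b, hb⟩ := h2.1 p hp
  obtain ⟨r, hr⟩ := h1 Γ p s (Bd Γ p s) 2 hΓ (cs_Bd hΓ p s) hs fun y hy => hy.2.ge
  have hTc : IsCompact (Bd Γ p s ∩ {y | s ≤ inner ℝ p y}) :=
    (cs_Bd hΓ p s).cpt.inter_right (isClosed_le continuous_const (by fun_prop))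
  have hT : ∀ y ∈ Bd Γ p s ∩ {y | s ≤ inner ℝ p y}, y ∈ S ∧ inner ℝ (b 0) y = s := by
    rintro y ⟨⟨hy, hy1⟩, hy2⟩
    refine ⟨hy, ?_⟩
    rw [hb]
    refine le_antisymm ?_ hy2
    rw [← hy1]
    exact inner_le_ht Γ p y
  rcases sph2 b h3 h4 h5 h6 hTc hT (r x) (r y) with h | h | h
  · exact Or.inl (hr (h.trans (map_zero r).symm))
  · exact Or.inr (Or.inl (hr (h.trans (map_zero r).symm)))
  · exact Or.inr (Or.inr (hr h))

end R3

end AS
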