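import Pool.Agent.Lib.AS.R3.Spec
import Pool.Agent.Lib.AS.Sph

/-!
# The cohomology of the three-sphere and of projective three-space
-/

set_option autoImplicit false

namespace AS

namespace R3

theorem finrank_E4 : Module.finrank ℝ E4 = 3 + 1 := by simp

theorem pSph : S_Sph := by
  have h := sph_sphere (m := 3) (by norm_num) finrank_E4
  obtain ⟨e, he, _⟩ := h.hm
  exact ⟨h.hk 1 (by norm_num) (by norm_num), h.hk 2 (by norm_num) (by norm_num), e, he⟩

theorem pRP : S_RP := by
  obtain ⟨h1, h2, _⟩ := rp_sphere (m := 3) (by norm_num) finrank_E4 zero_notMem_S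
  exact ⟨h1 3 le_rfl, fun _ k y => h2 k y⟩

end R3

end AS
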