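import Pool.Agent.Lib.AS.R3.Spec

/-!
# Alexander-Spanier cohomology: splitting a minimal carrier
-/

set_option autoImplicit false

namespace AS

namespace R3

theorem rSpl (h1 : M8) (h2 : M9) (h6 : M6) : S_Spl := by
  intro X _ Γ C Z k x hZ A B hok hne hmin hAc hAi hBc hBi hAB hAZ hBZ
  have hA : A ⊆ Z := hAB ▸ Set.subset_union_left
  have hB : B ⊆ Z := hAB ▸ Set.subset_union_right
  have hmv : MVs Γ ∅ A B (A ∩ B) Z :=
    ⟨OkD.empty Γ, ⟨hok.cpt.of_isClosed_subset hAc hA, hAi, hok.fr.mono hA⟩,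
      ⟨hok.cpt.of_isClosed_subset hBc hB, hBi, hok.fr.mono hB⟩, rfl, hAB.symm⟩
  obtain ⟨u, hu⟩ := (h1 X Γ ∅ A B (A ∩ B) Z k hmv).1 (res hZ (k + 1) x)
    (by
      rw [res_res _ _ (hA.trans hZ)]
      exact hmin A (hA.trans hZ) hA hAZ hAc hAi)
    (by
      rw [res_res _ _ (hB.trans hZ)]
      exact hmin B (hB.trans hZ) hB hBZ hBc hBi)
  refine ⟨u, fun a b hab => hne ?_⟩
  rw [hu, hab, (h6 X Γ ∅ A B (A ∩ B) Z k hmv).2.1]
  have e1 := (h2 X Γ ∅ A B (A ∩ B) Z k hmv).2.1 a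
  have e2 := (h2 X Γ ∅ A B (A ∩ B) Z k hmv).2.2 b
  rw [e1, e2, add_zero]

end R3

end AS
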