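import Pool.Agent.Lib.AS.R3.Spec

/-!
# Stereographic projection of a round two-sphere
-/

set_option autoImplicit false

namespace AS

namespace R3

private theorem ste_alg {s y1 y2 y3 d u v r : ℝ} (hr : r ^ 2 = 1 - s ^ 2)
    (hd : 0 < d) (h1 : r * y1 = r ^ 2 - d) (h2 : y2 = u * d) (h3 : y3 = v * d)
    (hn : s ^ 2 + y1 ^ 2 + y2 ^ 2 + y3 ^ 2 = 1) : d * (1 + r ^ 2 * (u ^ 2 + v ^ 2)) = 2 * r ^ 2 := by
  have e : d * (d * (1 + r ^ 2 * (u ^ 2 + v ^ 2)) - 2 * r ^ 2) = 0 := by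
    have h4 : (r * y1) ^ 2 = (r ^ 2 - d) ^ 2 := by rw [h1]
    rw [h2, h3] at hn
    linear_combination r ^ 2 * hn - h4 - r ^ 2 * hr
  rcases mul_eq_zero.mp e with h | h
  · exact absurd h hd.ne'
  · linarith

theorem rSte (h1 : S_Onb) : S_Ste := by
  intro p hp p' hp' s hs0 hs1 hpp
  have hr0 : 0 < 1 - s ^ 2 := by nlinarith
  set r : ℝ := Real.sqrt (1 - s ^ 2) with hr
  have hrpos : 0 < r := Real.sqrt_pos.mpr hr0
  have hrsq : r ^ 2 = 1 - s ^ 2 := Real.sq_sqrt hr0.le
  have hnp : ‖p‖ = 1 := mem_S.mp hp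
  have hnp' : ‖p'‖ = 1 := mem_S.mp hp'
  set q : E4 := r⁻¹ • (p' - s • p) with hq
  have hqn : ‖p' - s • p‖ ^ 2 = r ^ 2 := by
    rw [@norm_sub_sq_real, norm_smul, hnp', hnp, inner_smul_right, real_inner_comm, hpp,
      Real.norm_eq_abs, mul_one, sq_abs, hrsq]
    ring
  have hqS : q ∈ S := by
    rw [mem_S, hq, norm_smul, norm_inv, Real.norm_eq_abs, abs_of_pos hrpos]
    have : ‖p' - s • p‖ = r := by
      have h2 := abs_eq_abs.mpr (sq_eq_sq_iff_eq_or_eq_neg.mp hqn)
      rwa [abs_of_nonneg (norm_nonneg _), abs_of_pos hrpos] at h2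
    rw [this, inv_mul_cancel₀ hrpos.ne']
  have hpq : inner ℝ p q = (0 : ℝ) := by
    rw [hq, inner_smul_right, inner_sub_right, hpp, inner_smul_right, inner_self_one hp, mul_one,
      sub_self, mul_zero]
  have hp'eq : p' = s • p + r • q := by
    rw [hq, smul_smul, mul_inv_cancel₀ hrpos.ne', one_smul]
    abel
  obtain ⟨b, hb0, hb1⟩ := h1.2 p hp q hqS hpq
  have hinner : ∀ y : E4, inner ℝ p' y = s * inner ℝ p y + r * inner ℝ q y := by
    intro y
    conv_lhs => rw [hp'eq]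
    rw [inner_add_left, real_inner_smul_left, real_inner_smul_left]
  have hpos : ∀ y ∈ S, y ≠ p' → 0 < 1 - inner ℝ p' y := by
    intro y hy hne
    have h2 := dist_sq hp' hy
    have h3 : 0 < dist p' y := dist_pos.mpr hne.symm
    have h4 : 0 < dist p' y ^ 2 := by positivity
    linarith
  refine ⟨fun y => ![inner ℝ (b 2) y / (1 - inner ℝ p' y), inner ℝ (b 3) y / (1 - inner ℝ p' y)],
    ?_, ?_⟩
  · rw [continuousOn_pi]
    intro i
    have hc : ∀ z : E4, ContinuousOn (fun y : E4 => inner ℝ z y / (1 - inner ℝ p' y))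
        {y | y ∈ S ∧ y ≠ p'} := by
      intro z
      refine ContinuousOn.div (by fun_prop) (by fun_prop) ?_
      intro y hy
      exact (hpos y hy.1 hy.2).ne'
    fin_cases i
    · exact hc (b 2)
    · exact hc (b 3)
  · rintro y ⟨hyS, hyp, hys⟩ z ⟨hzS, hzp, hzs⟩ hyz
    have e2 : inner ℝ (b 2) y / (1 - inner ℝ p' y) = inner ℝ (b 2) z / (1 - inner ℝ p' z) :=
      congrFun hyz 0
    have e3 : inner ℝ (b 3) y / (1 - inner ℝ p' y) = inner ℝ (b 3) z / (1 - inner ℝ p' z) :=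
      congrFun hyz 1
    have hdy := hpos y hyS hyp
    have hdz := hpos z hzS hzp
    have key : ∀ w : E4, w ∈ S → inner ℝ p w = s → 0 < 1 - inner ℝ p' w →
        (1 - inner ℝ p' w) * (1 + r ^ 2 * ((inner ℝ (b 2) w / (1 - inner ℝ p' w)) ^ 2 +
          (inner ℝ (b 3) w / (1 - inner ℝ p' w)) ^ 2)) = 2 * r ^ 2 := by
      intro w hw hws hd
      have hi := hinner w
      rw [hws] at hi
      refine ste_alg (s := s) (y1 := inner ℝ q w) (y2 := inner ℝ (b 2) w) (y3 := inner ℝ (b 3) w)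
        hrsq hd (by rw [hi, hrsq]; ring) (by field_simp) (by field_simp) ?_
      have hsum := b.sum_sq_norm_inner_right w
      rw [Fin.sum_univ_four, hb0, hb1, mem_S.mp hw] at hsum
      simp only [Real.norm_eq_abs, sq_abs, one_pow] at hsum
      rw [hws] at hsum
      exact hsum
    have ky := key y hyS hys hdy
    have kz := key z hzS hzs hdz
    rw [e2, e3] at ky
    have hpos2 : 0 < 1 + r ^ 2 * ((inner ℝ (b 2) z / (1 - inner ℝ p' z)) ^ 2 +
          (inner ℝ (b 3) z / (1 - inner ℝ p' z)) ^ 2) := by positivity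
    have hdd : 1 - inner ℝ p' y = 1 - inner ℝ p' z :=
      mul_right_cancel₀ hpos2.ne' (ky.trans kz.symm)
    have hq1 : inner ℝ q y = inner ℝ q z := by
      have h2 := hinner y
      have h3 := hinner z
      rw [hys] at h2
      rw [hzs] at h3
      have h4 : r * inner ℝ q y = r * inner ℝ q z := by linarith
      exact mul_left_cancel₀ hrpos.ne' h4
    rw [hdd, div_left_inj' hdz.ne'] at e2 e3
    refine b.repr.injective ?_
    ext i
    rw [b.repr_apply_apply, b.repr_apply_apply]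
    fin_cases i
    · change inner ℝ (b 0) y = inner ℝ (b 0) z
      rw [hb0, hys, hzs]
    · change inner ℝ (b 1) y = inner ℝ (b 1) z
      rw [hb1, hq1]
    · exact e2
    · exact e3

end R3

end AS
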