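import Pool.Agent.Lib.AS.R3.Spec

/-!
# Transfer on cochains
-/

set_option autoImplicit false

namespace AS

namespace R3

private def rf (φ : List E4 → ZMod 2) : List E4 → ZMod 2 := fun l => φ (l.map fun x => -x)

private theorem rf_z0 {C : Set E4} (hC : IvS (Pm E4) C) {n : ℕ} {φ : List E4 → ZMod 2}
    (h : Z0 n C φ) : Z0 n C (rf φ) := by
  obtain ⟨ε, hε, h1⟩ := h
  refine ⟨ε, hε, fun l hl hs => h1 _ (by simpa using hl) ?_⟩
  exact (Sml.map_iff hC ng_mem ε l).mpr hs

private theorem dd_rf (φ : List E4 → ZMod 2) : dd (rf φ) = rf (dd φ) := by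
  funext l
  exact dd_map (fun x => -x) φ l

private theorem rf_add (φ ψ : List E4 → ZMod 2) : rf (φ + ψ) = rf φ + rf ψ := rfl

private theorem rf_rf (φ : List E4 → ZMod 2) : rf (rf φ) = φ := by
  funext l
  unfold rf
  rw [List.map_map]
  congr 1
  have : (fun x : E4 => -x) ∘ (fun x : E4 => -x) = id := by
    funext x
    exact neg_neg x
  rw [this, List.map_id]

private theorem iv_iff {φ : List E4 → ZMod 2} : Iv (Pm E4) φ ↔ rf φ = φ := by
  rw [iv_Pm]
  constructor
  · intro h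
    funext l
    exact h l
  · intro h l
    exact congrFun h l

private theorem iv_bot (φ : List E4 → ZMod 2) : Iv (⊥ : Subgroup (E4 ≃ᵢ E4)) φ := by
  intro g hg l
  rw [Subgroup.mem_bot.mp hg]
  have : l.map (1 : E4 ≃ᵢ E4) = l := by
    conv_rhs => rw [← List.map_id l]
    rfl
  rw [this]

/-- the half of a cochain -/
private noncomputable def hf (φ : List E4 → ZMod 2) : List E4 → ZMod 2
  | [] => 0
  | y :: m => sg y * φ (y :: m)

private theorem hf_add {φ : List E4 → ZMod 2} (hφ : rf φ = φ) {l : List E4} (hl : l ≠ [])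
    (h0 : (0 : E4) ∉ l) : (hf φ + rf (hf φ)) l = φ l := by
  rcases l with _ | ⟨y, m⟩
  · exact (hl rfl).elim
  · have hy : y ≠ 0 := fun h => h0 (by rw [h]; exact List.mem_cons_self)
    have h1 : rf φ (y :: m) = φ (y :: m) := by rw [hφ]
    have h2 : φ (-y :: m.map fun x => -x) = φ (y :: m) := h1
    change sg y * φ (y :: m) + sg (-y) * φ (-y :: m.map fun x => -x) = φ (y :: m)
    rw [h2, sg_neg hy]
    have h3 := z2_add_self (sg y * φ (y :: m))
    have h4 : sg y * φ (y :: m) + (1 + sg y) * φ (y :: m) =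
        (sg y * φ (y :: m) + sg y * φ (y :: m)) + φ (y :: m) := by ring
    rw [h4, h3, zero_add]

/-- **Tr0.** Transfer. -/
theorem rTr0 : S_Tr0 := by
  intro C k hC hbot hk x
  obtain ⟨φ, hφ, rfl⟩ := cl_surj x
  have hφi : rf φ = φ := iv_iff.mp hφ.1
  obtain ⟨ε, hε, hφd⟩ := hφ.2.2
  have hne : ∀ l : List E4, (∀ x ∈ l, x ∈ C) → (0 : E4) ∉ l := fun l hl h => hC.zero (hl 0 h)
  -- the sum of the two halves
  have hsum : ∀ l : List E4, l ≠ [] → (∀ x ∈ l, x ∈ C) → (hf φ + rf (hf φ)) l = φ l :=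
    fun l hl hlC => hf_add hφi hl (hne l hlC)
  have hdsum : ∀ l : List E4, l.length = k + 2 → (∀ x ∈ l, x ∈ C) →
      dd (hf φ) l + rf (dd (hf φ)) l = dd φ l := by
    intro l hl hlC
    rw [← dd_rf, ← Pi.add_apply, ← dd_add']
    apply dd_congr
    intro m hm hml
    apply hsum m
    · intro h
      rw [h] at hml
      simp at hml
      omega
    · exact fun x hx => hlC x (hm.subset hx)
  obtain ⟨χ, hχi, _, hχ⟩ := exists_Iv (Γ := Pm E4) hC.inv (k + 2) (φ := dd (hf φ)) hε (by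
    intro l hl hs g hg
    rcases hg with rfl | rfl
    · have : l.map (1 : E4 ≃ᵢ E4) = l := by
        conv_rhs => rw [← List.map_id l]
        rfl
      rw [this]
    · have h1 := hdsum l hl hs.1
      rw [hφd l hl hs] at h1
      have h2 : dd (hf φ) l = -rf (dd (hf φ)) l := eq_neg_of_add_eq_zero_left h1
      rw [ZMod.neg_eq_self_mod_two] at h2
      exact h2.symm)
  have hχc : χ ∈ Cyc (Pm E4) ∅ (k + 1) C := by
    refine ⟨hχi, Z0.empty (k + 1) (Set.inter_empty C) _, ?_⟩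
    have h1 := hχ.dd
    rw [dd_add', dd_dd', zero_add] at h1
    exact h1
  have hχb : χ ∈ Bnd (Pm E4) ∅ (k + 1) C := by
    rw [← cl_eq_zero hχc]
    exact hk _
  obtain ⟨_, η, hηi, _, hη⟩ := mem_Bnd_succ.mp hχb
  have hηi' : rf η = η := iv_iff.mp hηi
  have hc : hf φ + η ∈ Cyc (⊥ : Subgroup (E4 ≃ᵢ E4)) ∅ k C := by
    refine ⟨iv_bot _, Z0.empty k (Set.inter_empty C) _, ?_⟩
    have h1 := hχ.add hη
    have h2 : dd (hf φ) + χ + (χ + dd η) = dd (hf φ + η) := by
      rw [dd_add', add_assoc, ← add_assoc χ χ, add_self, zero_add]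
    rw [h2] at h1
    exact h1
  have hb : hf φ + η ∈ Bnd (⊥ : Subgroup (E4 ≃ᵢ E4)) ∅ k C := by
    rw [← cl_eq_zero hc]
    exact hbot _
  obtain ⟨_, θ, _, _, hθ0, hθ⟩ := hb
  rw [cl_eq_zero]
  refine ⟨hφ.1, θ + rf θ, ?_, ?_, ?_, ?_⟩
  · rw [iv_iff, rf_add, rf_rf, add_comm]
  · rcases k with _ | k
    · rw [Z0.nil]
      change θ [] + θ [] = 0
      rw [hθ0, add_zero]
    · exact Z0.empty k (Set.inter_empty C) _
  · change θ [] + θ [] = 0
    rw [hθ0, add_zero]
  · have h1 := hθ.add (rf_z0 hC.inv hθ)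
    refine h1.congr fun l hl hlC => ?_
    have h2 : l ≠ [] := by
      intro h
      rw [h] at hl
      simp at hl
    have h3 := hsum l h2 hlC
    rw [dd_add', dd_rf, rf_add, rf_add, hηi']
    have h4 : (hf φ + η + dd θ + (rf (hf φ) + η + rf (dd θ))) l =
        (hf φ + rf (hf φ)) l + (η l + η l) + (dd θ l + rf (dd θ) l) := by
      simp only [Pi.add_apply]
      ring
    rw [h4, h3, z2_add_self, add_zero]
    rfl

end R3

end AS
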