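import Pool.Agent.Lib.AS.AllM
import Pool.Agent.Lib.AS.R3.Bd
import Pool.Agent.Lib.AS.R3.Cap
import Pool.Agent.Lib.AS.R3.Car
import Pool.Agent.Lib.AS.R3.Chn
import Pool.Agent.Lib.AS.R3.Co3
import Pool.Agent.Lib.AS.R3.Dic
import Pool.Agent.Lib.AS.R3.Ev
import Pool.Agent.Lib.AS.R3.Gch
import Pool.Agent.Lib.AS.R3.Gn
import Pool.Agent.Lib.AS.R3.H3
import Pool.Agent.Lib.AS.R3.Half
import Pool.Agent.Lib.AS.R3.Hmt
import Pool.Agent.Lib.AS.R3.LB
import Pool.Agent.Lib.AS.R3.Odd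
import Pool.Agent.Lib.AS.R3.Onb
import Pool.Agent.Lib.AS.R3.One
import Pool.Agent.Lib.AS.R3.Pow
import Pool.Agent.Lib.AS.R3.Rm
import Pool.Agent.Lib.AS.R3.S2
import Pool.Agent.Lib.AS.R3.SphRP
import Pool.Agent.Lib.AS.R3.Spl
import Pool.Agent.Lib.AS.R3.Ste
import Pool.Agent.Lib.AS.R3.Tr0

/-!
# AS/R3: the proved statements, without hypotheses
-/

set_option autoImplicit false

namespace AS

namespace R3

theorem okChn : S_Chn := rChn okT1 okT2
theorem okCar : S_Car := rCar okChn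
theorem okSpl : S_Spl := rSpl okM8 okM9 okM6
theorem okLB : S_LB := rLB okCar okSpl okN1 okN2
theorem okHmt : S_Hmt := rHmt
theorem okCtr : S_Ctr := rCtr okN1 okN2
theorem okOnb : S_Onb := rOnb
theorem okCo3 : S_Co3 := rCo3 okOnb
theorem okSte : S_Ste := rSte okOnb
theorem okHalf : S_Half := rHalf okN3
theorem okBd : S_Bd := rBd okHalf okLB okCo3 okSte
theorem okCap : S_Cap := rCap okCtr okHalf
theorem okH3 : S_H3 := h3 okCar okSpl okBd okN1
theorem okS2 : S_S2 := rS2 okHalf okOnb okLB okM6 okM8 okM9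
theorem okSph : S_Sph := pSph
theorem okRP : S_RP := pRP
theorem okRm : S_Rm := rm okChn okBd okCap okH3 okS2 okM6 okM8 okM9 okM10
theorem okTr0 : S_Tr0 := rTr0
theorem okOdd : S_Odd := rOdd okRm okH3 okTr0 okSph
theorem okPow : S_Pow := rPow
theorem okOne : S_One := rOne okM1
theorem okEv : S_Ev := rEv okRP okOne okT1 okK3
theorem okDic : S_Dic := dic
theorem okGch : S_Gch := rGch okChn
theorem okGn : S_Gn := rGn okRm okH3 okRP

end R3

end AS
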