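import Pool.Agent.Lib.AS.SpecMV
import Pool.Agent.Lib.AS.SpecCup
import Pool.Agent.Lib.AS.Pm

/-!
# Closed subsets of the three-sphere and of projective three-space: definitions

`S` is the unit sphere of `ℝ⁴`, `Γ` is one of the groups `⊥`, `Pm E4 = {1, -1}`; for a closed
invariant subset `C` of `S` the group `H Γ ∅ k C` is the cohomology of `C` or of `C / ±`.
`ht Γ p y` is the inner product with `p` (for `Γ = ⊥`), or its absolute value (for `Γ = Pm E4`);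
`Cb`, `Bd`, `Cm` are the closed ball with centre `p`, its boundary and the complement of the open ball.
-/

set_option autoImplicit false

namespace AS

namespace R3

/-- `ℝ⁴` -/
abbrev E4 : Type := EuclideanSpace ℝ (Fin 4)

/-- the unit sphere -/
abbrev S : Set E4 := Metric.sphere (0 : E4) 1

theorem mem_S {x : E4} : x ∈ S ↔ ‖x‖ = 1 := by
  rw [mem_sphere_zero_iff_norm]

theorem zero_notMem_S : (0 : E4) ∉ S := by
  rw [mem_S, norm_zero]
  exact zero_ne_one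

theorem zero_notMem {C : Set E4} (h : C ⊆ S) : (0 : E4) ∉ C := fun h0 => zero_notMem_S (h h0)

theorem neg_mem_S {x : E4} (h : x ∈ S) : -x ∈ S := by
  rw [mem_S, norm_neg]
  exact mem_S.mp h

theorem isCompact_S : IsCompact S := isCompact_sphere _ _

theorem isClosed_S : IsClosed S := Metric.isClosed_sphere

theorem ne_neg_of_mem {x : E4} (h : x ∈ S) : x ≠ -x := by
  intro h1
  have h2 : x + x = 0 := by
    nth_rewrite 2 [h1]
    exact add_neg_cancel x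
  rw [← two_smul ℝ x, smul_eq_zero] at h2
  rcases h2 with h2 | h2
  · norm_num at h2
  · rw [h2] at h
    exact zero_notMem_S h

/-- the two groups which we use -/
def GP (Γ : Subgroup (E4 ≃ᵢ E4)) : Prop := Γ = ⊥ ∨ Γ = Pm E4

theorem gp_bot : GP (⊥ : Subgroup (E4 ≃ᵢ E4)) := Or.inl rfl

theorem gp_Pm : GP (Pm E4) := Or.inr rfl

theorem Pm_ne_bot : Pm E4 ≠ ⊥ := by
  intro h
  have h1 : ng E4 ∈ (⊥ : Subgroup (E4 ≃ᵢ E4)) := h ▸ ng_mem
  rw [Subgroup.mem_bot] at h1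
  have h2 : ng E4 (EuclideanSpace.single 0 1) = EuclideanSpace.single 0 1 := by
    rw [h1]
    rfl
  have h3 : (EuclideanSpace.single (0 : Fin 4) (1 : ℝ)) ∈ S := by
    rw [mem_S]
    simp
  exact ne_neg_of_mem h3 h2.symm

/-- closed invariant subsets of the sphere -/
structure Cs (Γ : Subgroup (E4 ≃ᵢ E4)) (C : Set E4) : Prop where
  cl : IsClosed C
  sub : C ⊆ S
  inv : IvS Γ C

section Cs

variable {Γ : Subgroup (E4 ≃ᵢ E4)} {C C' : Set E4}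

theorem Cs.cpt (h : Cs Γ C) : IsCompact C := isCompact_S.of_isClosed_subset h.cl h.sub

theorem Cs.zero (h : Cs Γ C) : (0 : E4) ∉ C := zero_notMem h.sub

theorem fr_of_sub (hΓ : GP Γ) (h : C ⊆ S) : Fr Γ C := by
  intro g hg x hx hgx
  rcases hΓ with rfl | rfl
  · exact Subgroup.mem_bot.mp hg
  · rcases hg with rfl | rfl
    · rfl
    · exact (ne_neg_of_mem (h hx) hgx.symm).elim

theorem Cs.ok (hΓ : GP Γ) (h : Cs Γ C) : Ok Γ C := ⟨h.cpt, h.inv, fr_of_sub hΓ h.sub⟩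

theorem Cs.inter (h : Cs Γ C) (h' : Cs Γ C') : Cs Γ (C ∩ C') :=
  ⟨h.cl.inter h'.cl, fun _ hx => h.sub hx.1, h.inv.inter h'.inv⟩

theorem Cs.union (h : Cs Γ C) (h' : Cs Γ C') : Cs Γ (C ∪ C') :=
  ⟨h.cl.union h'.cl, Set.union_subset h.sub h'.sub, h.inv.union h'.inv⟩

theorem ivS_of (hΓ : GP Γ) (h : ∀ x ∈ C, -x ∈ C) : IvS Γ C := by
  rcases hΓ with rfl | rfl
  · exact IvS.bot C
  · exact ivS_Pm.mpr h

theorem cs_S (hΓ : GP Γ) : Cs Γ S :=
  ⟨isClosed_S, Set.Subset.refl _, ivS_of hΓ fun _ hx => neg_mem_S hx⟩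

theorem cs_empty : Cs Γ (∅ : Set E4) := ⟨isClosed_empty, Set.empty_subset _, IvS.empty Γ⟩

theorem Cs.bot (h : Cs Γ C) : Cs ⊥ C := ⟨h.cl, h.sub, IvS.bot C⟩

theorem Cs.sInter {𝒞 : Set (Set E4)} (h : ∀ C ∈ 𝒞, Cs Γ C) (h0 : 𝒞.Nonempty) :
    Cs Γ (⋂₀ 𝒞) := by
  refine ⟨isClosed_sInter fun C hC => (h C hC).cl, ?_, ?_⟩
  · obtain ⟨C, hC⟩ := h0
    exact fun x hx => (h C hC).sub (hx C hC)
  · exact fun g hg x hx C hC => (h C hC).inv g hg x (hx C hC)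

end Cs

/-! ### heights, balls -/

open Classical in
/-- the height over the equator of `p` -/
noncomputable def ht (Γ : Subgroup (E4 ≃ᵢ E4)) (p y : E4) : ℝ :=
  if Γ = ⊥ then inner ℝ p y else |inner ℝ p y|

theorem ht_bot (p y : E4) : ht ⊥ p y = inner ℝ p y := if_pos rfl

theorem ht_Pm (p y : E4) : ht (Pm E4) p y = |inner ℝ p y| := if_neg Pm_ne_bot

theorem ht_cont (Γ : Subgroup (E4 ≃ᵢ E4)) (p : E4) : Continuous (ht Γ p) := by
  by_cases h : Γ = ⊥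
  · have : ht Γ p = fun y => inner ℝ p y := funext fun y => if_pos h
    rw [this]
    fun_prop
  · have : ht Γ p = fun y => |inner ℝ p y| := funext fun y => if_neg h
    rw [this]
    fun_prop

theorem ht_inv {Γ : Subgroup (E4 ≃ᵢ E4)} (hΓ : GP Γ) (p : E4) {g : E4 ≃ᵢ E4} (hg : g ∈ Γ)
    (y : E4) : ht Γ p (g y) = ht Γ p y := by
  rcases hΓ with rfl | rfl
  · rw [Subgroup.mem_bot.mp hg]
    rfl
  · rcases hg with rfl | rfl
    · rfl
    · rw [ht_Pm, ht_Pm, ng_apply, inner_neg_right, abs_neg]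

theorem inner_le_one {p y : E4} (hp : p ∈ S) (hy : y ∈ S) : |inner ℝ p y| ≤ 1 := by
  have h := abs_real_inner_le_norm p y
  rw [mem_S.mp hp, mem_S.mp hy, one_mul] at h
  exact h

theorem ht_le_one (Γ : Subgroup (E4 ≃ᵢ E4)) {p y : E4} (hp : p ∈ S) (hy : y ∈ S) :
    ht Γ p y ≤ 1 := by
  unfold ht
  split_ifs
  · exact (le_abs_self _).trans (inner_le_one hp hy)
  · exact inner_le_one hp hy

theorem inner_self_one {p : E4} (hp : p ∈ S) : inner ℝ p p = (1 : ℝ) := by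
  rw [real_inner_self_eq_norm_sq, mem_S.mp hp, one_pow]

theorem ht_self (Γ : Subgroup (E4 ≃ᵢ E4)) {p : E4} (hp : p ∈ S) : ht Γ p p = 1 := by
  unfold ht
  rw [inner_self_one hp]
  simp

theorem inner_le_ht (Γ : Subgroup (E4 ≃ᵢ E4)) (p y : E4) : inner ℝ p y ≤ ht Γ p y := by
  unfold ht
  split_ifs
  · exact le_rfl
  · exact le_abs_self _

theorem dist_sq {p y : E4} (hp : p ∈ S) (hy : y ∈ S) :
    dist p y ^ 2 = 2 * (1 - inner ℝ p y) := by
  rw [dist_eq_norm, @norm_sub_sq_real, mem_S.mp hp, mem_S.mp hy]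
  ring

/-- the height is attained at a point of the orbit -/
theorem ht_orbit {Γ : Subgroup (E4 ≃ᵢ E4)} (hΓ : GP Γ) (p y : E4) :
    ∃ g ∈ Γ, ht Γ p y = inner ℝ p (g y) := by
  rcases hΓ with rfl | rfl
  · exact ⟨1, Subgroup.one_mem _, ht_bot p y⟩
  · rcases le_total 0 (inner ℝ p y) with h | h
    · exact ⟨1, Subgroup.one_mem _, by rw [ht_Pm, abs_of_nonneg h]; rfl⟩
    · exact ⟨ng E4, ng_mem, by rw [ht_Pm, abs_of_nonpos h, ng_apply, inner_neg_right]⟩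

/-- the points of maximal height are the points of the orbit of `p` -/
theorem ht_eq_one {Γ : Subgroup (E4 ≃ᵢ E4)} (hΓ : GP Γ) {p y : E4} (hp : p ∈ S) (hy : y ∈ S)
    (h : ht Γ p y = 1) : ∃ g ∈ Γ, y = g p := by
  obtain ⟨g, hg, h1⟩ := ht_orbit hΓ p y
  have hgy : g y ∈ S := (cs_S hΓ).inv g hg y hy
  have h2 := dist_sq hp hgy
  rw [← h1, h, sub_self, mul_zero] at h2
  have h3 : p = g y := dist_eq_zero.mp (pow_eq_zero_iff (two_ne_zero) |>.mp h2)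
  refine ⟨g⁻¹, Γ.inv_mem hg, ?_⟩
  rw [h3, IsometryEquiv.inv_apply_self]

/-- the balls with centre `p` are small -/
theorem ht_near {Γ : Subgroup (E4 ≃ᵢ E4)} (hΓ : GP Γ) {p : E4} (hp : p ∈ S) {X : Set E4}
    (hX : IsClosed X) (hi : IvS Γ X) (hpX : p ∉ X) :
    ∃ s₀ : ℝ, 0 < s₀ ∧ s₀ < 1 ∧ ∀ y ∈ S, s₀ ≤ ht Γ p y → y ∉ X := by
  obtain ⟨r, hr, hb⟩ := Metric.isOpen_iff.mp hX.isOpen_compl p hpX
  refine ⟨max (1 / 2) (1 - r ^ 2 / 4), lt_max_of_lt_left (by norm_num), max_lt (by norm_num)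
    (by have : 0 < r ^ 2 := by positivity
        linarith), fun y hy hs hyX => ?_⟩
  obtain ⟨g, hg, h1⟩ := ht_orbit hΓ p y
  have hgy : g y ∈ S := (cs_S hΓ).inv g hg y hy
  have h2 := dist_sq hp hgy
  rw [← h1] at h2
  have h3 : 1 - r ^ 2 / 4 ≤ ht Γ p y := (le_max_right _ _).trans hs
  have h4 : dist p (g y) ^ 2 < r ^ 2 := by
    have : 0 < r ^ 2 := by positivity
    rw [h2]
    linarith
  have h5 : dist p (g y) < r := lt_of_pow_lt_pow_left₀ 2 hr.le h4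
  have h6 : g y ∈ Metric.ball p r := by
    rw [Metric.mem_ball, dist_comm]
    exact h5
  exact hb h6 (hi g hg y hyX)

/-- the closed ball -/
def Cb (Γ : Subgroup (E4 ≃ᵢ E4)) (p : E4) (s : ℝ) : Set E4 := {y | y ∈ S ∧ s ≤ ht Γ p y}

/-- the boundary of the ball -/
def Bd (Γ : Subgroup (E4 ≃ᵢ E4)) (p : E4) (s : ℝ) : Set E4 := {y | y ∈ S ∧ ht Γ p y = s}

/-- the complement of the open ball -/
def Cm (Γ : Subgroup (E4 ≃ᵢ E4)) (p : E4) (s : ℝ) : Set E4 := {y | y ∈ S ∧ ht Γ p y ≤ s}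

section balls

variable {Γ : Subgroup (E4 ≃ᵢ E4)} (hΓ : GP Γ) (p : E4) (s : ℝ)

include hΓ in
theorem cs_Cb : Cs Γ (Cb Γ p s) :=
  ⟨isClosed_S.inter (isClosed_le continuous_const (ht_cont Γ p)), fun _ h => h.1,
    fun g hg y hy => ⟨(cs_S hΓ).inv g hg y hy.1, by rw [ht_inv hΓ p hg]; exact hy.2⟩⟩

include hΓ in
theorem cs_Bd : Cs Γ (Bd Γ p s) :=
  ⟨isClosed_S.inter (isClosed_eq (ht_cont Γ p) continuous_const), fun _ h => h.1,
    fun g hg y hy => ⟨(cs_S hΓ).inv g hg y hy.1, by rw [ht_inv hΓ p hg]; exact hy.2⟩⟩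

include hΓ in
theorem cs_Cm : Cs Γ (Cm Γ p s) :=
  ⟨isClosed_S.inter (isClosed_le (ht_cont Γ p) continuous_const), fun _ h => h.1,
    fun g hg y hy => ⟨(cs_S hΓ).inv g hg y hy.1, by rw [ht_inv hΓ p hg]; exact hy.2⟩⟩

theorem Cm_inter_Cb : Cm Γ p s ∩ Cb Γ p s = Bd Γ p s := by
  ext y
  exact ⟨fun h => ⟨h.1.1, le_antisymm h.1.2 h.2.2⟩,
    fun h => ⟨⟨h.1, h.2.le⟩, ⟨h.1, h.2.ge⟩⟩⟩

theorem Cm_union_Cb : Cm Γ p s ∪ Cb Γ p s = S := by
  ext y
  constructor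
  · rintro (h | h) <;> exact h.1
  · intro h
    rcases le_total (ht Γ p y) s with h' | h'
    · exact Or.inl ⟨h, h'⟩
    · exact Or.inr ⟨h, h'⟩

end balls

/-- `S \ X` is connected modulo `Γ` -/
def Cmod (Γ : Subgroup (E4 ≃ᵢ E4)) (X : Set E4) : Prop :=
  ∀ A B : Set E4, IsClosed A → IsClosed B → IvS Γ A → IvS Γ B → A ∪ B = S → A ∩ B = X →
    A = X ∨ B = X

/-- the open set `S \ X` is even: the double covering is trivial over it -/
def Evn (X : Set E4) : Prop := ∃ W : Set E4, IsOpen W ∧ ∀ y ∈ S, y ∉ X → (y ∈ W ↔ -y ∉ W)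

/-- restriction from `S` is onto in degree `k` -/
def Ont (Γ : Subgroup (E4 ≃ᵢ E4)) (k : ℕ) (X : Set E4) : Prop :=
  ∀ h : X ⊆ S, ∀ y : H Γ ∅ k X, ∃ x : H Γ ∅ k S, res h k x = y

/-- all classes of `X / ±` are `0` or powers of `a` -/
def Gen (X : Set E4) : Prop :=
  ∀ h0 : (0 : E4) ∉ X, ∀ (k : ℕ) (y : H (Pm E4) ∅ k X), y = 0 ∨ y = ap k X h0

end R3

end AS
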