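import Pool.Agent.Lib.AS.R3.Spec

/-!
# Odd complements have no cohomology in degree two
-/

set_option autoImplicit false

namespace AS

namespace R3

/-- **Odd.** -/
theorem rOdd (h1 : S_Rm) (h2 : S_H3) (h3 : S_Tr0) (h4 : S_Sph) : S_Odd := by
  intro X hX hXS hpc
  have hCm : Cmod (⊥ : Subgroup (E4 ≃ᵢ E4)) X := by
    intro A B hA hB _ _ hAB hI
    have key : ∀ A B : Set E4, A ∪ B = S → A ∩ B = X → ¬ ((S \ X) ∩ Aᶜ).Nonempty → B = X := by
      intro A B hAB hI he
      have hSA : S ⊆ A := by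
        intro x hx
        by_contra hxA
        refine he ⟨x, ⟨hx, fun hxX => ?_⟩, hxA⟩
        rw [← hI] at hxX
        exact hxA hxX.1
      rw [← hI]
      exact (Set.inter_eq_right.mpr fun x hx => hSA (hAB ▸ Or.inr hx)).symm
    by_cases hA1 : ((S \ X) ∩ Aᶜ).Nonempty
    · by_cases hB1 : ((S \ X) ∩ Bᶜ).Nonempty
      · exfalso
        obtain ⟨x, hx, hx1, hx2⟩ := hpc Aᶜ Bᶜ hA.isOpen_compl hB.isOpen_compl (fun x hx => by
          by_contra hc
          rw [Set.mem_union, not_or, Set.mem_compl_iff, Set.mem_compl_iff, not_not, not_not] at hc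
          exact hx.2 (hI ▸ ⟨hc.1, hc.2⟩)) hA1 hB1
        have h5 : x ∈ A ∪ B := by
          rw [hAB]
          exact hx.1
        rcases h5 with h5 | h5
        · exact hx1 h5
        · exact hx2 h5
      · exact Or.inl (key B A (by rw [Set.union_comm]; exact hAB)
          (by rw [Set.inter_comm]; exact hI) hB1)
    · exact Or.inr (key A B hAB hI hA1)
  obtain ⟨_, s2, s3⟩ := h4
  have h2X : ∀ x : H (⊥ : Subgroup (E4 ≃ᵢ E4)) ∅ 2 X, x = 0 := by
    intro x
    obtain ⟨y, hy⟩ := h1 ⊥ X gp_bot hX.bot hCm s3 hX.sub x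
    rw [← hy, s2 y, map_zero]
  exact h3 X 2 hX h2X fun x => h2 (Pm E4) X 3 gp_Pm hX (Or.inr ⟨le_rfl, hXS⟩) x

end R3

end AS
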