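import Pool.Agent.Lib.AS.R3.Defs

/-!
# Closed subsets of the three-sphere and of projective three-space: statements

Conventions as in `AS/Defs`, `AS/SpecMV`, `AS/SpecCup`, `AS/Pm`, `AS/R3/Defs`.  Every statement `S_…` is a
`Prop`; the file `AS/R3/<Name>.lean` proves `theorem <name> : S_<Name>` (with the used statements as
hypotheses; `M7`, `T1`, … are the statements of `SpecMV`, `K3` the one of `SpecCup`).
-/

set_option autoImplicit false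

namespace AS

namespace R3

/-! ## general tools -/

/-- **Chn** (90 lines; uses `T1`, `T2`).  Tautness for chains.

Proof. `B = ⋂₀ 𝒞` is compact, invariant, free (`Ok Γ B`; all members are compact, `𝒞` is not empty).  (a) For `ρ > 0` and `C₀ ∈ 𝒞` there is `C ∈ 𝒞`, `C ⊆ C₀`, with
`∀ x ∈ C, ∃ b ∈ B, dist x b < ρ`: otherwise the sets `{x ∈ C | ∀ b ∈ B, ρ ≤ dist x b}`, `C ∈ 𝒞`, `C ⊆ C₀`, are nonempty, compact, closed, and directed by `⊇` (`𝒞` is a chain), so their intersection is nonempty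
(`IsCompact.nonempty_sInter_of_directedOn_nonempty_isCompact_isClosed` or `IsCompact.nonempty_iInter_of_directed_nonempty_isCompact_isClosed`); a point `x` of it is in all members of `𝒞` (a member `C'` is
`⊇ C₀` or `⊆ C₀`), so `x ∈ B` and `ρ ≤ dist x x = 0`.  (b) Extension: `T2` with `B ⊆ C₀` gives `ρ`, take `N = C` from (a).  (c) Vanishing: `T1` for `x` on `C₀` gives `ρ`, `N = C` from (a). -/
def S_Chn : Prop := ∀ (X : Type) [MetricSpace X] (Γ : Subgroup (X ≃ᵢ X)) (D : Set X)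
  (𝒞 : Set (Set X)) (n : ℕ), OkD Γ D → 𝒞.Nonempty → IsChain (· ⊆ ·) 𝒞 → (∀ C ∈ 𝒞, Ok Γ C) →
  (∀ y : H Γ D n (⋂₀ 𝒞), ∃ C, ∃ hC : C ∈ 𝒞, ∃ x : H Γ D n C,
    res (Set.sInter_subset_of_mem hC) n x = y) ∧
  (∀ C₀ (h₀ : C₀ ∈ 𝒞) (x : H Γ D n C₀), res (Set.sInter_subset_of_mem h₀) n x = 0 →
    ∃ C ∈ 𝒞, ∃ h : C ⊆ C₀, res h n x = 0)

/-- **Car** (60 lines; uses `S_Chn`).  Minimal carriers.

Proof. Zorn (`zorn_superset_nonempty`, or `zorn_superset`) for the family of all closed invariant `Z ⊆ C` with `res h k x ≠ 0` (it contains `C`, `res_self`).  For a nonempty chain `𝒞` in the family `⋂₀ 𝒞` is in the family: it is closed, invariant,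
contained in `C`, and if the restriction of `x` to it vanishes then `S_Chn` (with any `C₀ ∈ 𝒞`, the class `res _ k x` on `C₀`, `res_res`) gives a member on which `x` vanishes. -/
def S_Car : Prop := ∀ (X : Type) [MetricSpace X] (Γ : Subgroup (X ≃ᵢ X)) (C : Set X) (k : ℕ)
  (x : H Γ ∅ k C), Ok Γ C → x ≠ 0 →
  ∃ Z, ∃ hZ : Z ⊆ C, Ok Γ Z ∧ res hZ k x ≠ 0 ∧
    ∀ Z', ∀ h : Z' ⊆ C, Z' ⊆ Z → Z' ≠ Z → IsClosed Z' → IvS Γ Z' → res h k x = 0

/-- **Spl** (50 lines; uses `M8`, `M9`).  Splitting a minimal carrier.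

Proof. `z = res hZ (k+1) x` vanishes on `A` and on `B` (`A ⊆ Z`, `A ≠ Z`, `res_res`), so `z = del u` with `u ∈ H^k(A ∩ B)` (`M8`, with `MVs Γ ∅ A B (A ∩ B) Z`; `A`, `B` are closed subsets of the compact `Z`, so `Ok`).
If `u = res a + res b` then `del u = del (res a) + del (res b) = 0` (`M6` for the additivity, `M9`): contradiction to `z ≠ 0`. -/
def S_Spl : Prop := ∀ (X : Type) [MetricSpace X] (Γ : Subgroup (X ≃ᵢ X)) (C Z : Set X) (k : ℕ)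
  (x : H Γ ∅ (k + 1) C) (hZ : Z ⊆ C) (A B : Set X), Ok Γ Z → res hZ (k + 1) x ≠ 0 →
  (∀ Z', ∀ h : Z' ⊆ C, Z' ⊆ Z → Z' ≠ Z → IsClosed Z' → IvS Γ Z' → res h (k + 1) x = 0) →
  IsClosed A → IvS Γ A → IsClosed B → IvS Γ B → A ∪ B = Z → A ≠ Z → B ≠ Z →
  ∃ u : H Γ ∅ k (A ∩ B), ∀ (a : H Γ ∅ k A) (b : H Γ ∅ k B),
    u ≠ res Set.inter_subset_left k a + res Set.inter_subset_right k b

/-- **LB** (100 lines; uses `S_Car`, `S_Spl`, `N1`, `N2`).  Compact sets which embed in `ℝⁿ` have no cohomology in the degrees `k ≥ n`, `k ≥ 1`.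

Proof. Induction on `n`, for all `C`, `k`, `g`.  Suppose `x ≠ 0`, write `k = k' + 1`, let `Z` be a minimal carrier (`S_Car`, `Γ = ⊥`; `Ok` by `IvS.bot`, `Fr.bot`).  `Z` has two different points `u`, `v`: otherwise `Z` is finite (subsingleton)
and `N1` gives `res hZ k x = 0`.  `g u ≠ g v`, so `n ≥ 1` and `g u i ≠ g v i` for some `i`; let `c` be strictly between.  `A = {y ∈ Z | g y i ≤ c}`, `B = {y ∈ Z | c ≤ g y i}` are closed (`Z` is closed, `g` is continuous on `Z`), cover `Z`, and are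
`≠ Z` (each misses one of `u`, `v`).  `S_Spl` gives `w ∈ H^(k')(A ∩ B)` which is not `res a + res b`; on `A ∩ B` the `i`-th coordinate of `g` is constant, so `g' y = (g y) ∘ i.succAbove : Fin (n-1) → ℝ` is injective and continuous
on `A ∩ B`.  If `k' ≥ 1` the induction hypothesis (`n - 1 ≤ k'`) gives `w = 0 = res 0 + res 0`: contradiction.  If `k' = 0` then `n = 1`, `g'` has values in the one point space `Fin 0 → ℝ`, so `A ∩ B` has at most one point, it is preconnected, and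
`N2` gives `w = 0` or `w = one = res one + res 0` (the restriction of `one` is `one`, `res_cl`): contradiction. -/
def S_LB : Prop := ∀ (X : Type) [MetricSpace X] (C : Set X) (n k : ℕ) (g : X → Fin n → ℝ),
  IsCompact C → ContinuousOn g C → Set.InjOn g C → 1 ≤ k → n ≤ k →
  ∀ x : H (⊥ : Subgroup (X ≃ᵢ X)) ∅ k C, x = 0

/-- **Hmt** (120 lines).  Homotopy invariance.

Proof. Let `φ` represent `x`, let `ε > 0` be such that `φ = 0` on the `ε`-small lists of length `n + 1` in `C' ∩ D'` and `dd φ = 0` on the `ε`-small lists of length `n + 2` in `C'`.  The function `(t, x) ↦ F t x` is uniformly continuous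
on the compact set `[0,1] ×ˢ C` (`IsCompact.uniformContinuousOn_of_continuous`): there is `δ > 0` with `dist (F t x) (F t' y) < ε` for `|t - t'| < δ`, `dist x y < δ`.  STEP: for `t, t' ∈ [0,1]`, `|t - t'| < δ`, the pullbacks of `x` by `F t` and
`F t'` agree: `κ = pp (F t) (F t') φ` is invariant (`pp_map`, same `g'` for `t` and `t'`), `κ [] = 0`, and for a `δ`-small list `l` in `C` all lists with entries in `l.map (F t)`, `l.map (F t')` are `ε`-small in `C'` (and in `D'` if `l` is in `D`, by `Adm.mapsD`), so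
(`pp_congr`) `κ = 0` on the `δ`-small lists of length `n` in `C ∩ D`, `pp (F t) (F t') (dd φ) l = 0` for `δ`-small `l` of length `n + 1`, and by `prism` `dd κ l = φ (l.map (F t)) + φ (l.map (F t'))`.  Then `pull_cl`, `cl_eq_cl`, `mem_Bnd`.
CHAIN: choose `m` with `1 / m < δ`; `F (i / m)`, `i = 0, …, m`: induction. -/
def S_Hmt : Prop := ∀ (X Y : Type) [MetricSpace X] [MetricSpace Y] (Γ : Subgroup (X ≃ᵢ X))
  (D C : Set X) (Γ' : Subgroup (Y ≃ᵢ Y)) (D' C' : Set Y) (F : ℝ → X → Y) (n : ℕ),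
  IsCompact C → ContinuousOn (fun q : ℝ × X => F q.1 q.2) (Set.Icc (0 : ℝ) 1 ×ˢ C) →
  (∀ t ∈ Set.Icc (0 : ℝ) 1, Adm Γ D C Γ' D' C' (F t)) →
  (∀ g ∈ Γ, ∃ g' ∈ Γ', ∀ t ∈ Set.Icc (0 : ℝ) 1, ∀ x, F t (g x) = g' (F t x)) →
  ∀ (h0 : Adm Γ D C Γ' D' C' (F 0)) (h1 : Adm Γ D C Γ' D' C' (F 1)) (x : H Γ' D' n C'),
    pull (F 0) h0 n x = pull (F 1) h1 n x

/-- **Ctr** (60 lines; uses `S_Hmt`, `N1`).  Contractible compact sets.

Proof. `F t` is admissible (`Γ = ⊥`: `eqv` with `g' = 1`; uniform continuity on the compact `C`).  `x = pull (F 0) x` (`pull_congr` with `fun x => x`, and `res_self`), `pull (F 0) x = pull (F 1) x` (`S_Hmt`), and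
`pull (F 1) x = pull (fun _ => q) x` (`pull_congr`) factors through the restriction of `x` to `{q}` (`pull_pull`), which is `0` by `N1`. -/
def S_Ctr : Prop := ∀ (X : Type) [MetricSpace X] (C : Set X) (F : ℝ → X → X) (q : X) (n : ℕ),
  IsCompact C → q ∈ C → ContinuousOn (fun q : ℝ × X => F q.1 q.2) (Set.Icc (0 : ℝ) 1 ×ˢ C) →
  (∀ t ∈ Set.Icc (0 : ℝ) 1, ∀ x ∈ C, F t x ∈ C) → (∀ x ∈ C, F 0 x = x) →
  (∀ x ∈ C, F 1 x = q) → ∀ x : H (⊥ : Subgroup (X ≃ᵢ X)) ∅ (n + 1) C, x = 0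

/-! ## geometry of the three-sphere -/

/-- **Onb** (30 lines).  Orthonormal bases.

Proof. `Orthonormal.exists_orthonormalBasis_extension_of_card_eq` for the families on `{0}` and on `{0, 1}`. -/
def S_Onb : Prop := (∀ p ∈ S, ∃ b : OrthonormalBasis (Fin 4) ℝ E4, b 0 = p) ∧
  ∀ p ∈ S, ∀ q ∈ S, inner ℝ p q = (0 : ℝ) →
    ∃ b : OrthonormalBasis (Fin 4) ℝ E4, b 0 = p ∧ b 1 = q

/-- **Co3** (20 lines; uses `S_Onb`).

Proof. `b 0 = p`, `g y i = inner ℝ (b i.succ) y`; a vector is determined by its four coordinates (`b.repr` is injective, `OrthonormalBasis.repr_apply_apply`). -/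
def S_Co3 : Prop := ∀ p ∈ S, ∀ s : ℝ, ∃ g : E4 → Fin 3 → ℝ, Continuous g ∧
  Set.InjOn g {y | inner ℝ p y = s}

/-- **Ste** (80 lines; uses `S_Onb`).  Stereographic projection of a round two-sphere.

Proof. `r = √(1 - s²) > 0`, `q = r⁻¹ • (p' - s • p)` is a unit vector orthogonal to `p`; basis `b` with `b 0 = p`, `b 1 = q`, so `p' = s • b 0 + r • b 1`.  `g y = ![inner (b 2) y / (1 - inner y p'), inner (b 3) y / (1 - inner y p')]`;
`1 - inner y p' > 0` for `y ∈ S`, `y ≠ p'` (`dist_sq`).  Injectivity: let `y_i` be the coordinates, `y_0 = s`, `c = inner y p' = s² + r y_1`, `d = 1 - c > 0`, so `r y_1 = r² - d`; `u = y_2 / d`, `v = y_3 / d`.  From `s² + y_1² + y_2² + y_3² = 1`: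
`(r² - d)² / r² + (u² + v²) d² = r²`, i.e. `d (1 / r² + u² + v²) = 2`.  So `u`, `v` determine `d`, hence `y_1`, `y_2`, `y_3`. -/
def S_Ste : Prop := ∀ p ∈ S, ∀ p' ∈ S, ∀ s : ℝ, 0 < s → s < 1 → inner ℝ p p' = s →
  ∃ g : E4 → Fin 2 → ℝ, ContinuousOn g {y | y ∈ S ∧ y ≠ p'} ∧
    Set.InjOn g {y | y ∈ S ∧ y ≠ p' ∧ inner ℝ p y = s}

/-- **Half** (50 lines; uses `N3`).  Away from the equator of `p` we may work with `Γ = ⊥`.

Proof. `F = Z ∩ {y | s ≤ inner ℝ p y}` is compact.  `Γ = ⊥`: `F = Z` (`ht_bot`), take the identity (or `res`).  `Γ = Pm E4`: `N3` with `Γ' = ⊥`, `D = ∅`, `C = Z`: for `y ∈ Z`: `|inner ℝ p y| ≥ s > 0`, so exactly one of `y`, `-y` is in `F`.  `Pm E4` is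
finite (`{1, ng E4}`).  The map is the `pull` in `N3`. -/
def S_Half : Prop := ∀ (Γ : Subgroup (E4 ≃ᵢ E4)) (p : E4) (s : ℝ) (Z : Set E4) (k : ℕ), GP Γ →
  Cs Γ Z → 0 < s → (∀ y ∈ Z, s ≤ ht Γ p y) →
  ∃ r : H Γ ∅ k Z →+ H (⊥ : Subgroup (E4 ≃ᵢ E4)) ∅ k (Z ∩ {y | s ≤ inner ℝ p y}),
    Function.Injective r

/-- **Bd** (70 lines; uses `S_Half`, `S_LB`, `S_Co3`, `S_Ste`).  Closed subsets of the boundary of a ball.

Proof. By `S_Half` (with this `s`) it is enough that `H ⊥ ∅ k F = 0` for `F = Z ∩ {s ≤ inner ℝ p y}`; on `F` `inner ℝ p y = s` (`inner_le_ht`).  `k ≥ 3`: `S_LB` with `n = 3`, `S_Co3`.  `k ≥ 2` and `Z ≠ Bd Γ p s`: there is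
`p' ∈ Bd Γ p s`, `p' ∉ Z`; replacing `p'` by `g p'` (`ht_orbit`; `Z` and `Bd` are invariant) we have `inner ℝ p p' = s`.  `F ⊆ {y | y ∈ S ∧ y ≠ p' ∧ inner ℝ p y = s}`: `S_LB` with `n = 2`, `S_Ste`. -/
def S_Bd : Prop := ∀ (Γ : Subgroup (E4 ≃ᵢ E4)) (p : E4) (s : ℝ) (Z : Set E4) (k : ℕ), GP Γ →
  p ∈ S → 0 < s → s < 1 → Cs Γ Z → Z ⊆ Bd Γ p s → (3 ≤ k ∨ (2 ≤ k ∧ Z ≠ Bd Γ p s)) →
  ∀ x : H Γ ∅ k Z, x = 0

/-- **Cap** (90 lines; uses `S_Ctr`, `S_Half`).  Balls are acyclic.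

Proof. First part.  `1 < s`: the set is empty (`inner_le_one`), `H_empty`.  `s ≤ 1`: `S_Ctr` with `q = p` and `F t y = ‖(1 - t) • y + t • p‖⁻¹ • ((1 - t) • y + t • p)`.  For `y` in the set (so `y ≠ -p`, as `inner ℝ p y > -1`) the vector
`w = (1 - t) • y + t • p` is not zero: `‖w‖² = (1-t)² + t² + 2 t (1-t) c`, `c = inner ℝ p y > -1`, `≥ (1 - 2t)²` with equality only if `t (1-t) = 0`.  `‖w‖ ≤ 1`, `inner ℝ p w = (1-t) c + t`.  Claim: `inner ℝ p w ≥ c ‖w‖` (so `F t y` is in the set).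
If `c ≥ 0`: `(1-t) c + t ≥ c ≥ c ‖w‖`.  If `c < 0` and `(1-t) c + t ≥ 0`: clear.  If `(1-t) c + t < 0`: `c² ‖w‖² - ((1-t) c + t)² = -(1 - c²) t (t + 2 (1-t) c) ≥ 0`, so `|(1-t) c + t| ≤ |c| ‖w‖`.
Second part: `S_Half` for `Z = Cb Γ p s`; `Z ∩ {y | s ≤ inner ℝ p y} = {y | y ∈ S ∧ s ≤ inner ℝ p y}` (`inner_le_ht`). -/
def S_Cap : Prop := (∀ p ∈ S, ∀ s : ℝ, -1 < s → ∀ (k : ℕ)
    (x : H (⊥ : Subgroup (E4 ≃ᵢ E4)) ∅ (k + 1) {y | y ∈ S ∧ s ≤ inner ℝ p y}), x = 0) ∧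
  ∀ (Γ : Subgroup (E4 ≃ᵢ E4)), GP Γ → ∀ p ∈ S, ∀ s : ℝ, 0 < s → ∀ (k : ℕ)
    (x : H Γ ∅ (k + 1) (Cb Γ p s)), x = 0

/-- **H3** (110 lines; uses `S_Car`, `S_Spl`, `S_Bd`, `N1`).  Top cohomology.

Proof. Suppose `x ≠ 0`, let `Z' ⊆ Z` be a minimal carrier (`S_Car`), `z ∈ Z'` (`Z'` is not empty: `H_empty`).  `Z'` is not contained in the orbit of `z` (`N1`: the orbit `{z}` or `{z, -z}` is finite), so by `ht_eq_one` there is `y ∈ Z'` with `ht Γ z y < 1`; put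
`s₀ = max (ht Γ z y) 0`.  For `s₀ < s < 1`: `A = Z' ∩ Cm Γ z s` (does not contain `z`, `ht_self`), `B = Z' ∩ Cb Γ z s` (does not contain `y`): `S_Spl` gives a nonzero class of degree `k - 1` on `A ∩ B = Z' ∩ Bd Γ z s` (take `a = b = 0`).
`k ≥ 4`: contradiction to `S_Bd` (`k - 1 ≥ 3`).  `k ≥ 3`: by `S_Bd` `A ∩ B = Bd Γ z s`, so `Bd Γ z s ⊆ Z'` for all `s` with `s₀ < s < 1`.  So every `y' ∈ S` with `ht Γ z y' > s₀` is in `Z'` (if `ht Γ z y' = 1`: `ht_eq_one`, invariance).  Hence `Z'` is open in `S` (the set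
`{y' | s₀ < ht Γ z y'}` is open and contains `z`), closed, nonempty; `S` is preconnected (`isPreconnected_sphere`, rank `> 1`): `Z' = S`, so `Z = S`: contradiction. -/
def S_H3 : Prop := ∀ (Γ : Subgroup (E4 ≃ᵢ E4)) (Z : Set E4) (k : ℕ), GP Γ → Cs Γ Z →
  (4 ≤ k ∨ (3 ≤ k ∧ Z ≠ S)) → ∀ x : H Γ ∅ k Z, x = 0

/-- **S2** (150 lines; uses `S_Half`, `S_Onb`, `S_LB`, `M6`, `M8`, `M9`).  The second cohomology of a round two-sphere has at most two elements.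

Proof. By `S_Half` (the map `r` is additive and injective) it is enough to show it for `H ⊥ ∅ 2 T`, `T = Bd Γ p s ∩ {y | s ≤ inner ℝ p y} = {y | y ∈ S ∧ inner ℝ p y = s}`.  Basis `b`, `b 0 = p`, coordinates `y_i = inner ℝ (b i) y`; on `T`: `y_1² + y_2² + y_3² = 1 - s² =: r² > 0`.
(1) `T₊ = T ∩ {0 ≤ y_1}`, `T₋ = T ∩ {y_1 ≤ 0}`, `T₀ = T ∩ {y_1 = 0}`.  `(y_2, y_3)` is injective on `T₊` and on `T₋` (`y_1 = ± √(r² - y_2² - y_3²)`): `H²(T₊) = H²(T₋) = 0` (`S_LB`).  So every `x ∈ H²(T)` is `del u`, `u ∈ H¹(T₀)` (`M8`).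
(2) `A₊ = T₀ ∩ {0 ≤ y_2}`, `A₋ = T₀ ∩ {y_2 ≤ 0}`, `A₀ = A₊ ∩ A₋ = T₀ ∩ {y_2 = 0}` = the two points `y_3 = ± r`.  `y_3` is injective on `A₊` and on `A₋`: `H¹(A₊) = H¹(A₋) = 0` (`S_LB` with `n = k = 1`).  So every `u ∈ H¹(T₀)` is `del w`, `w ∈ H⁰(A₀)`.
(3) `w` is represented by `φ`; put `a = φ [p₊]`, `c = φ [p₋]` (`p_± = s b_0 ± r b_3`).  If `a = c` then `w = 0` or `w = one` (`mem_Bnd_zero`, `cl_eq_cl`), and `del one = 0` (`M9`, `one = res one`).  If `a ≠ c` and `a' ≠ c'` for `w`, `w'` then `w + w' = 0` or `one`, so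
`del w = del w'` (`M6`).  So `del w ∈ {0, e}` for one fixed `e`: for all `u, u' ∈ H¹(T₀)`: `u = 0 ∨ u' = 0 ∨ u = u'`, and the same for `del u`, `del u'`. -/
def S_S2 : Prop := ∀ (Γ : Subgroup (E4 ≃ᵢ E4)) (p : E4) (s : ℝ), GP Γ → p ∈ S → 0 < s → s < 1 →
  ∀ x y : H Γ ∅ 2 (Bd Γ p s), x = 0 ∨ y = 0 ∨ x = y

/-- the cohomology of the sphere (from the sphere library) -/
def S_Sph : Prop := (∀ x : H (⊥ : Subgroup (E4 ≃ᵢ E4)) ∅ 1 S, x = 0) ∧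
  (∀ x : H (⊥ : Subgroup (E4 ≃ᵢ E4)) ∅ 2 S, x = 0) ∧
  ∃ x : H (⊥ : Subgroup (E4 ≃ᵢ E4)) ∅ 3 S, x ≠ 0

/-- the cohomology of projective space (from the library on projective spaces) -/
def S_RP : Prop := ap 3 S zero_notMem_S ≠ 0 ∧ Gen S

/-! ## complements of connected open sets -/

/-- **Rm** (200 lines; uses `S_Chn`, `S_Bd`, `S_Cap`, `S_H3`, `S_S2`, `M6`, `M8`, `M9`, `M10`).  If `S \ X` is connected modulo `Γ` then `H²(S) → H²(X)` is onto.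

Proof. Let `𝒵` be the family of all `Z` with `Cs Γ Z`, `X ⊆ Z`, `Ont Γ 2 Z`.  `S ∈ 𝒵` (`res_self`).  `𝒵` is closed under intersections of nonempty chains: a class on `⋂₀ 𝒞` extends to a member of `𝒞` (`S_Chn`) and so comes from `S` (`res_res`).  Let `Z` be a minimal element (`zorn_superset_nonempty`).
We show `Z = X`.  Suppose `Z ≠ X`.
(A) Let `z ∈ Z`, `z ∉ X`, `s₀` from `ht_near` for `X`.  Claim: `Bd Γ z s ⊆ Z` for `s₀ ≤ s < 1`.  `Z₁ = Z ∩ Cm Γ z s` is in `Cs Γ`, contains `X` (points of `X` have `ht < s₀ ≤ s`), and `z ∉ Z₁` (`ht_self`).  If `Bd Γ z s ⊄ Z` then `I = Z₁ ∩ (Z ∩ Cb Γ z s) = Z ∩ Bd Γ z s ≠ Bd Γ z s`, so `H²(I) = 0` (`S_Bd`),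
and for every `y ∈ H²(Z₁)` `M10` (with `0` on `Z ∩ Cb Γ z s`, `Z = Z₁ ∪ (Z ∩ Cb Γ z s)`) gives `y' ∈ H²(Z)` with `res y' = y`, and `y'` comes from `S`: `Ont Γ 2 Z₁`, so `Z₁ ∈ 𝒵` is smaller than `Z`: contradiction.
(B) So every `y ∈ S` with `s₀ < ht Γ z y` is in `Z` (for `ht = 1`: `ht_eq_one`) and not in `X`.  Hence `B = X ∪ (S \ Z) = S \ (Z \ X)` is closed (its complement is a union of `Sᶜ` and, for each `z ∈ Z \ X`, a neighbourhood of `z`), invariant, `Z ∪ B = S`, `Z ∩ B = X`.  `Cmod`: `Z = X` (excluded) or `B = X`, so `S \ Z ⊆ X ⊆ Z`: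
`Z = S`.
(C) `Z = S ≠ X`.  Let `z ∈ S`, `z ∉ X`, `s = s₀` from `ht_near`; `Z₁ = Cm Γ z s ⊇ X`, `Z₁ ≠ S`.  `MVs Γ ∅ (Cm Γ z s) (Cb Γ z s) (Bd Γ z s) S`.  `H³(Cm) = 0` (`S_H3`), `H³(Cb) = 0` (`S_Cap`), so the given `x₀ ≠ 0` in `H³(S)` is `del u₀` (`M8`), `u₀ ≠ 0` (`M6`).  Let `y ∈ H²(Cm)`, `w = res y ∈ H²(Bd)`: `del w = 0` (`M9`).
By `S_S2`: `u₀ = 0`, or `w = 0`, or `u₀ = w` (then `x₀ = del w = 0`).  So `w = 0` and `M10` gives a class on `S` which restricts to `y`: `Ont Γ 2 Z₁`, `Z₁ ∈ 𝒵`: contradiction to the minimality of `Z = S`. -/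
def S_Rm : Prop := ∀ (Γ : Subgroup (E4 ≃ᵢ E4)) (X : Set E4), GP Γ → Cs Γ X → Cmod Γ X →
  (∃ x : H Γ ∅ 3 S, x ≠ 0) → Ont Γ 2 X

/-- **Tr0** (110 lines).  Transfer.

Proof. `φ` represents `x`.  For a nonempty list `l = y :: m` put `ψ l = φ l` if `sg y = 1`, `ψ l = 0` otherwise; `ψ [] = 0`.  For lists `l` of points of `C` (so without `0`), `l ≠ []`: `ψ l + ψ (-l) = φ l` (`sg (-y) = 1 + sg y`, `φ` is invariant; `-l = l.map (fun x => -x)`).  So `dd ψ l + dd ψ (-l) = dd φ l`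
for lists of length `k + 2` in `C` (`dd_map`, `dd_congr`, `dd_add`), which is `0` for small `l`: `dd ψ` is invariant on small lists.  `exists_Iv` (`n = k + 2`): an invariant `χ`, equal to `dd ψ` on the small lists of length `k + 2` in `C`; `χ ∈ Cyc (Pm E4) ∅ (k+1) C` (`dd_congr`, `dd_dd`).  So `χ` is a coboundary: `χ + dd η = 0` on
small lists, `η` invariant (`mem_Bnd_succ`).  `ψ + η ∈ Cyc ⊥ ∅ k C`, so there is `θ`, `θ [] = 0`, with `ψ + η + dd θ = 0` on small lists of length `k + 1`.  Adding the same for `-l`: `φ + dd (θ + θ ∘ neg) = 0` on small lists (`η l + η (-l) = 0`), and `θ + θ ∘ neg` is invariant. -/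
def S_Tr0 : Prop := ∀ (C : Set E4) (k : ℕ), Cs (Pm E4) C →
  (∀ x : H (⊥ : Subgroup (E4 ≃ᵢ E4)) ∅ k C, x = 0) →
  (∀ x : H (Pm E4) ∅ (k + 1) C, x = 0) → ∀ x : H (Pm E4) ∅ k C, x = 0

/-- **Odd** (40 lines; uses `S_Rm`, `S_H3`, `S_Tr0`, `S_Sph`).  Odd complements.

Proof. `Cmod ⊥ X`: for closed `A`, `B` with `A ∪ B = S`, `A ∩ B = X` the sets `Aᶜ`, `Bᶜ` are open, `S \ X ⊆ Aᶜ ∪ Bᶜ`, `(S \ X) ∩ Aᶜ ∩ Bᶜ = ∅`, so by preconnectedness `S \ X` does not meet one of them, say `Aᶜ`: then `A = S`, `B = X`.  `S_Rm` with `Γ = ⊥` and `H ⊥ ∅ 2 S = 0` (`S_Sph`): `H ⊥ ∅ 2 X = 0`.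
`H (Pm E4) ∅ 3 X = 0` (`S_H3`).  `S_Tr0` with `k = 2`. -/
def S_Odd : Prop := ∀ X : Set E4, Cs (Pm E4) X → X ≠ S → IsPreconnected (S \ X) →
  ∀ x : H (Pm E4) ∅ 2 X, x = 0

/-! ## the class `a` -/

/-- **Pow** (20 lines).

Proof. `ap j X = cupH ∅ j (ap i X) (ap (j - i) X)` (`cupH_cl`, `cup_apc`), `cupH_zero_left`. -/
def S_Pow : Prop := ∀ (X : Set E4) (h0 : (0 : E4) ∉ X) (i j : ℕ), i ≤ j → ap i X h0 = 0 →
  ap j X h0 = 0

/-- **One** (90 lines).  `a = 0` on `X` if and only if `X` is even.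

Proof. `apc_one`, `cl_eq_zero`, `mem_Bnd_succ`.  (→) `ψ` invariant, `aac [x, y] = ψ [x] + ψ [y]` for `x, y ∈ X`, `dist x y < ε`, i.e. `sg x + ψ [x] = sg y + ψ [y]` (`aac_pair`).  `A = {x ∈ X | sg x + ψ [x] = 1}` is closed: if `x` is a limit of points of `A` then `x ∈ X` and there is `y ∈ A` with `dist x y < ε`.
`sg (-x) + ψ [-x] = 1 + sg x + ψ [x]`.  (←) `A` and `A' = {x ∈ X | -x ∈ A}` are disjoint compact sets with union `X`: there is `ε > 0` with `dist x y ≥ ε` for `x ∈ A`, `y ∈ A'` (`IsCompact`, `Disjoint`, for instance `Metric.infDist` or `exists_pos_forall_lt_edist`).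
`ψ l = sg x + (if x ∈ A then 1 else 0)` for `l = [x]` with `x ∈ X`, `ψ l = 0` for all other `l`: invariant, and `aac [x, y] + ψ [x] + ψ [y] = 0` for `ε`-small pairs in `X`. -/
def S_One : Prop := ∀ (X : Set E4) (h0 : (0 : E4) ∉ X), Cs (Pm E4) X →
  (ap 1 X h0 = 0 ↔ ∃ A : Set E4, A ⊆ X ∧ IsClosed A ∧ ∀ y ∈ X, (y ∈ A ↔ -y ∉ A))

/-- **Ev** (90 lines; uses `S_RP`, `S_One`, `T1`, `K3`).  Even complements: `a² ≠ 0`.

Proof. Suppose `ap 2 X = 0`.  `T1` (`B = X`, `C = S`, the class `ap 2 S`, `res_ap`) gives `ρ`.  `N = {y ∈ S | ∃ b ∈ X, dist y b ≤ ρ / 2}` and `K = {y ∈ S | ∀ b ∈ X, ρ / 2 ≤ dist y b}` are closed (`X` is compact), symmetric, `N ∪ K = S`, `K ∩ X = ∅`.  `ap 2 N = 0`.  `ap 1 K = 0` by `S_One` with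
`A = {y ∈ K | -y ∉ W}` (closed; for `y ∈ K`: `y ∈ A ↔ y ∈ W`).  `K3` (`A = N`, `B = K`, `p = 2`, `q = 1`, classes `ap 2 S`, `ap 1 S`): `cupH ∅ 3 (ap 2 S) (ap 1 S) = 0`, but it is `ap 3 S` (`cupH_cl`, `cup_apc`): contradiction to `S_RP`. -/
def S_Ev : Prop := ∀ (X : Set E4) (h0 : (0 : E4) ∉ X), Cs (Pm E4) X → Evn X → ap 2 X h0 ≠ 0

/-- **Dic** (120 lines).  The complement is connected or even.

Proof. If `S ⊆ X` then `S \ X = ∅` is preconnected.  Otherwise `y₀ ∈ S \ X`.  `V = {x : E4 | x ≠ 0 ∧ ‖x‖⁻¹ • x ∉ X}` is open, symmetric, closed under multiplication with `t > 0`, `S ∩ V = S \ X`.  `W = connectedComponentIn V y₀` is open (`IsOpen.connectedComponentIn`), `-W = connectedComponentIn V (-y₀)`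
(`Homeomorph.neg`), `P = W ∪ -W`, and `Q = V \ P` is open (a union of components of `V`).  `A = S \ Q`, `B = S \ P` are closed, symmetric, `A ∪ B = S`, `A ∩ B = X`.  `Cmod`: `A = X` would give `y₀ ∈ Q`; so `B = X`: `S \ X = S ∩ P`.  If `W ∩ -W = ∅`: for `y ∈ S \ X`: `y ∈ W` or `-y ∈ W`, not both: `Evn X`.
Otherwise `W = -W` (components), `S \ X = S ∩ W` is the image of `W` under `x ↦ ‖x‖⁻¹ • x` (`W` is closed under multiplication with `t > 0`, as the segment from `x` to `t x` is in `V`), which is continuous on `W`: preconnected. -/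
def S_Dic : Prop := ∀ X : Set E4, Cs (Pm E4) X → Cmod (Pm E4) X →
  IsPreconnected (S \ X) ∨ Evn X

/-- **Gch** (40 lines; uses `S_Chn`).  Intersections of chains.

Proof. A class on `⋂₀ 𝒞` extends to a member of `𝒞` (`S_Chn`), where it comes from `S`, respectively is `0` or `ap k` (`res_ap`). -/
def S_Gch : Prop := ∀ 𝒞 : Set (Set E4), 𝒞.Nonempty → IsChain (· ⊆ ·) 𝒞 →
  (∀ (Γ : Subgroup (E4 ≃ᵢ E4)) (k : ℕ), GP Γ → (∀ C ∈ 𝒞, Cs Γ C) → (∀ C ∈ 𝒞, Ont Γ k C) →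
    Ont Γ k (⋂₀ 𝒞)) ∧
  ((∀ C ∈ 𝒞, Cs (Pm E4) C) → (∀ C ∈ 𝒞, Gen C) → Gen (⋂₀ 𝒞))

/-- **Gn** (60 lines; uses `S_Rm`, `S_H3`, `S_RP`).  Closed sets with the cohomology of a projective space.

Proof. Degree `0`, `1`: hypothesis.  Degree `2`: if `Cmod (Pm E4) X` then `S_Rm` (`H (Pm E4) ∅ 3 S ≠ 0` by `S_RP`), `Gen S`, `res_ap`.  Degree `≥ 3`: if `X = S` then `S_RP`, otherwise `S_H3`. -/
def S_Gn : Prop := ∀ X : Set E4, Cs (Pm E4) X → Cmod (Pm E4) X →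
  (∀ (h0 : (0 : E4) ∉ X) (k : ℕ) (y : H (Pm E4) ∅ k X), k ≤ 1 → y = 0 ∨ y = ap k X h0) → Gen X

end R3

end AS
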